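import Mathlib
import Pool.Agent.KS6_44.VL.Brouwer

set_option linter.unusedSectionVars false

open Finset

namespace Pool.Agent.KS6_44.VL

variable {A : Type*} [Fintype A]

/-- the denominator of the retraction -/
noncomputable def den (x : A → ℝ) : ℝ := max (∑ k, max (x k) 0) 1

/-- retraction of the whole space to the simplex -/
noncomputable def ret (x : A → ℝ) : A → ℝ := fun i =>
  (max (x i) 0 + max 0 (1 - ∑ k, max (x k) 0) / Fintype.card A) / den x

lemma den_pos (x : A → ℝ) : 0 < den x := lt_of_lt_of_le one_pos (le_max_right _ _)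

lemma ret_cont [Nonempty A] : Continuous (ret (A := A)) := by
  refine continuous_pi fun i => ?_
  unfold ret
  refine Continuous.div ?_ ?_ fun x => (den_pos x).ne'
  · fun_prop
  · unfold den; fun_prop

lemma ret_mem [Nonempty A] (x : A → ℝ) : ret x ∈ stdSimplex ℝ A := by
  have hc : (0 : ℝ) < Fintype.card A := by exact_mod_cast Fintype.card_pos
  constructor
  · intro i
    unfold ret
    have h1 : 0 ≤ max (x i) 0 := le_max_right _ _
    have h2 : 0 ≤ max 0 (1 - ∑ k, max (x k) 0) := le_max_left _ _
    have := den_pos x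
    positivity
  · unfold ret
    rw [← Finset.sum_div, Finset.sum_add_distrib, Finset.sum_const, Finset.card_univ, nsmul_eq_mul,
      mul_div_cancel₀ _ hc.ne', div_eq_one_iff_eq (den_pos x).ne']
    unfold den
    rcases le_total (∑ k, max (x k) 0) 1 with h | h
    · rw [max_eq_right (by linarith), max_eq_right h]; ring
    · rw [max_eq_left (by linarith), max_eq_left h]; ring

lemma ret_eq [Nonempty A] {x : A → ℝ} (hx : x ∈ stdSimplex ℝ A) : ret x = x := by
  have h1 : ∀ k, max (x k) 0 = x k := fun k => max_eq_left (hx.1 k)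
  funext i
  unfold ret den
  simp only [h1, hx.2]
  simp

/-- a face-preserving continuous map of the simplex takes every interior value -/
theorem exists_eq_of_face [Nonempty A] (m : (A → ℝ) → (A → ℝ))
    (hcont : ContinuousOn m (stdSimplex ℝ A))
    (hmaps : ∀ p ∈ stdSimplex ℝ A, m p ∈ stdSimplex ℝ A)
    (hface : ∀ p ∈ stdSimplex ℝ A, ∀ i, p i = 0 → m p i = 0)
    (α : A → ℝ) (hα : α ∈ stdSimplex ℝ A) (hpos : ∀ i, 0 < α i) :
    ∃ p ∈ stdSimplex ℝ A, m p = α := by
  classical
  let s : (A → ℝ) → ℝ := fun p => ∑ k, max 0 (α k - m p k)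
  let h : (A → ℝ) → (A → ℝ) := fun p i => (p i + max 0 (α i - m p i)) / (1 + s p)
  have hs0 : ∀ p, 0 ≤ s p := fun p => Finset.sum_nonneg fun k _ => le_max_left _ _
  have hmem : ∀ p ∈ stdSimplex ℝ A, h p ∈ stdSimplex ℝ A := by
    intro p hp
    constructor
    · intro i
      have h1 := hp.1 i
      have h2 : 0 ≤ max 0 (α i - m p i) := le_max_left _ _
      have h3 := hs0 p
      simp only [h]
      positivity
    · simp only [h]
      rw [← Finset.sum_div, Finset.sum_add_distrib, hp.2, div_eq_one_iff_eq]
      have := hs0 p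
      positivity
  have hcoord : ContinuousOn h (stdSimplex ℝ A) := by
    rw [continuousOn_pi] at hcont ⊢
    intro i
    have hsc : ContinuousOn s (stdSimplex ℝ A) := by
      refine continuousOn_finsetSum _ fun k _ => ?_
      exact ContinuousOn.sup continuousOn_const (continuousOn_const.sub (hcont k))
    refine ContinuousOn.div ?_ (continuousOn_const.add hsc) ?_
    · exact ((continuous_apply i).continuousOn).add
        (ContinuousOn.sup continuousOn_const (continuousOn_const.sub (hcont i)))
    · intro p _
      have := hs0 p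
      positivity
  have hFc : Continuous fun x : A → ℝ => h (ret x) :=
    hcoord.comp_continuous ret_cont ret_mem
  obtain ⟨x, hx⟩ := Brouwer.brouwer (fun x : A → ℝ => h (ret x)) hFc 1 (by
    intro x
    rw [pi_norm_le_iff_of_nonneg zero_le_one]
    intro i
    have h1 := hmem (ret x) (ret_mem x)
    rw [Real.norm_of_nonneg (h1.1 i)]
    have h2 := Finset.single_le_sum (f := h (ret x)) (fun k _ => h1.1 k) (mem_univ i)
    rw [h1.2] at h2
    exact h2)
  have hxm : x ∈ stdSimplex ℝ A := by
    rw [← hx]; exact hmem _ (ret_mem x)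
  simp only [ret_eq hxm] at hx
  refine ⟨x, hxm, ?_⟩
  have hx' : ∀ i, x i * s x = max 0 (α i - m x i) := by
    intro i
    have h1 := congrFun hx i
    simp only [h] at h1
    have h2 : (0 : ℝ) < 1 + s x := by have := hs0 x; positivity
    rw [div_eq_iff h2.ne'] at h1
    linarith
  have hm := hmaps x hxm
  have hsum : ∑ i, (α i - m x i) = 0 := by
    rw [Finset.sum_sub_distrib, hα.2, hm.2]; ring
  have hle : ∀ i, α i ≤ m x i := by
    rcases (hs0 x).eq_or_lt with h0 | h0
    · intro i
      have h1 := hx' i
      rw [← h0, mul_zero] at h1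
      have h2 : α i - m x i ≤ 0 := by
        rw [h1]; exact le_max_right _ _
      linarith
    · exfalso
      have hxpos : ∀ i, 0 < x i := by
        intro i
        rcases (hxm.1 i).eq_or_lt with h1 | h1
        · have h2 := hface x hxm i h1.symm
          have h3 := hx' i
          rw [← h1, zero_mul, h2, sub_zero, max_eq_right (hpos i).le] at h3
          exact absurd h3 (hpos i).ne
        · exact h1
      have h4 : ∀ i, 0 < α i - m x i := by
        intro i
        have h5 := hx' i
        have h6 : 0 < x i * s x := mul_pos (hxpos i) h0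
        rw [h5] at h6
        by_contra hcon
        rw [max_eq_left (not_lt.1 hcon)] at h6
        exact lt_irrefl _ h6
      obtain ⟨i₀⟩ := ‹Nonempty A›
      have := Finset.sum_pos (fun i (_ : i ∈ univ) => h4 i) ⟨i₀, mem_univ _⟩
      linarith
  funext i
  have h1 : ∑ i, (m x i - α i) = 0 := by
    rw [Finset.sum_sub_distrib, hα.2, hm.2]; ring
  have h2 := (Finset.sum_eq_zero_iff_of_nonneg (fun i _ => sub_nonneg.2 (hle i))).1 h1 i (mem_univ i)
  linarith

end Pool.Agent.KS6_44.VL
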