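import Mathlib

set_option linter.unusedSectionVars false

open Finset

namespace Pool.Agent.KS6_44.VL

section Signs
variable {A : Type*} [Fintype A] [DecidableEq A]

/-- the sign of a side -/
def sg (b : Bool) : ℝ := if b then 1 else -1

lemma sg_sq (b : Bool) : sg b * sg b = 1 := by cases b <;> simp [sg]

lemma sg_not (b : Bool) : sg (!b) = - sg b := by cases b <;> simp [sg]

/-- flipping one coordinate -/
def flip (j : A) : (A → Bool) ≃ (A → Bool) where
  toFun σ := Function.update σ j (!σ j)
  invFun σ := Function.update σ j (!σ j)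
  left_inv σ := by
    funext k
    by_cases h : k = j
    · subst h; simp
    · simp [h]
  right_inv σ := by
    funext k
    by_cases h : k = j
    · subst h; simp
    · simp [h]

lemma sum_sg (j k : A) (h : j ≠ k) : ∑ σ : A → Bool, sg (σ j) * sg (σ k) = 0 := by
  have h1 : ∑ σ : A → Bool, sg (σ j) * sg (σ k) = ∑ σ : A → Bool, -(sg (σ j) * sg (σ k)) := by
    rw [← Equiv.sum_comp (flip j)]
    apply Finset.sum_congr rfl
    intro σ _
    have h2 : (flip j) σ j = !σ j := by simp [flip]
    have h3 : (flip j) σ k = σ k := by simp [flip, h.symm]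
    rw [h2, h3, sg_not]; ring
  rw [Finset.sum_neg_distrib] at h1
  linarith

lemma exists_signs (w : A → A → ℝ) :
    ∃ σ : A → Bool, ∑ i, (∑ j, w i j * (sg (σ i) * sg (σ j))) ^ 2 ≤
      ∑ i, ∑ j, w i j ^ 2 := by
  have h1 : ∑ σ : A → Bool, ∑ i, (∑ j, w i j * (sg (σ i) * sg (σ j))) ^ 2 =
      ∑ σ : A → Bool, ∑ i, ∑ j, w i j ^ 2 := by
    have h2 : ∀ i, ∑ σ : A → Bool, (∑ j, w i j * (sg (σ i) * sg (σ j))) ^ 2 =
        ∑ σ : A → Bool, ∑ j, w i j ^ 2 := by
      intro i
      calc ∑ σ : A → Bool, (∑ j, w i j * (sg (σ i) * sg (σ j))) ^ 2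
          = ∑ σ : A → Bool, ∑ j, ∑ k, w i j * w i k * (sg (σ j) * sg (σ k)) := by
            apply Finset.sum_congr rfl; intro σ _
            rw [sq, Finset.sum_mul_sum]
            apply Finset.sum_congr rfl; intro j _
            apply Finset.sum_congr rfl; intro k _
            have := sg_sq (σ i)
            linear_combination (w i j * w i k * (sg (σ j) * sg (σ k))) * this
        _ = ∑ j, ∑ k, w i j * w i k * ∑ σ : A → Bool, sg (σ j) * sg (σ k) := by
            rw [Finset.sum_comm]
            apply Finset.sum_congr rfl; intro j _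
            rw [Finset.sum_comm]
            apply Finset.sum_congr rfl; intro k _
            rw [Finset.mul_sum]
        _ = ∑ j, w i j * w i j * ∑ σ : A → Bool, (1 : ℝ) := by
            apply Finset.sum_congr rfl; intro j _
            rw [Finset.sum_eq_single j]
            · congr 1
              apply Finset.sum_congr rfl; intro σ _
              exact sg_sq _
            · intro k _ hk
              rw [sum_sg j k hk.symm, mul_zero]
            · intro h; exact absurd (mem_univ _) h
        _ = ∑ σ : A → Bool, ∑ j, w i j ^ 2 := by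
            rw [Finset.sum_comm]
            apply Finset.sum_congr rfl; intro j _
            rw [Finset.mul_sum]
            apply Finset.sum_congr rfl; intro σ _; ring
    rw [Finset.sum_comm, Finset.sum_congr rfl fun i _ => h2 i, Finset.sum_comm]
  obtain ⟨σ, -, hσ⟩ := Finset.exists_le_of_sum_le (s := (univ : Finset (A → Bool)))
    univ_nonempty h1.le
  exact ⟨σ, hσ⟩

end Signs

section Hall
variable {A : Type*} [Fintype A] [DecidableEq A]

lemma exists_matching_hall (A1 A2 : Finset A) (H : A → A → Prop) [DecidableRel H] (d : ℕ)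
    (hall : ∀ S ⊆ A1, S.card ≤ (A2.filter (fun y => ∃ x ∈ S, H x y)).card + d) :
    ∃ P ⊆ A1, ∃ f : A → A, Set.InjOn f P ∧ (∀ x ∈ P, f x ∈ A2 ∧ H x (f x)) ∧
      A1.card ≤ P.card + d := by
  classical
  let t : A1 → Finset (A ⊕ Fin d) := fun x =>
    (A2.filter (H x)).map ⟨Sum.inl, Sum.inl_injective⟩ ∪
      (univ : Finset (Fin d)).map ⟨Sum.inr, Sum.inr_injective⟩
  obtain ⟨F, hF1, hF2⟩ := (Finset.all_card_le_biUnion_card_iff_exists_injective t).1 (by
    intro s
    rcases s.eq_empty_or_nonempty with rfl | ⟨x0, hx0⟩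
    · simp
    have h1 : (((A2.filter (fun y => ∃ x ∈ s.map ⟨Subtype.val, Subtype.val_injective⟩, H x y)).map
        ⟨Sum.inl, Sum.inl_injective⟩ ∪
        (univ : Finset (Fin d)).map ⟨Sum.inr, Sum.inr_injective⟩ : Finset (A ⊕ Fin d))) ⊆
        s.biUnion t := by
      intro z hz
      rw [Finset.mem_union, Finset.mem_map, Finset.mem_map] at hz
      rw [Finset.mem_biUnion]
      rcases hz with ⟨y, hy, rfl⟩ | ⟨y, hy, rfl⟩
      · rw [Finset.mem_filter] at hy
        obtain ⟨hy1, x, hx, hxy⟩ := hy
        rw [Finset.mem_map] at hx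
        obtain ⟨x', hx', rfl⟩ := hx
        refine ⟨x', hx', ?_⟩
        simp only [t, Finset.mem_union, Finset.mem_map]
        exact Or.inl ⟨y, Finset.mem_filter.2 ⟨hy1, hxy⟩, rfl⟩
      · refine ⟨x0, hx0, ?_⟩
        simp only [t, Finset.mem_union, Finset.mem_map]
        exact Or.inr ⟨y, mem_univ _, rfl⟩
    refine le_trans ?_ (Finset.card_le_card h1)
    rw [Finset.card_union_of_disjoint, Finset.card_map, Finset.card_map, Finset.card_univ,
      Fintype.card_fin]
    · have h2 := hall (s.map ⟨Subtype.val, Subtype.val_injective⟩) (by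
        intro x hx
        rw [Finset.mem_map] at hx
        obtain ⟨x', -, rfl⟩ := hx
        exact x'.2)
      rw [Finset.card_map] at h2
      exact h2
    · rw [Finset.disjoint_left]
      intro z hz1 hz2
      rw [Finset.mem_map] at hz1 hz2
      obtain ⟨y, -, rfl⟩ := hz1
      obtain ⟨y', -, h⟩ := hz2
      simp at h)
  let P : Finset A := A1.filter fun x => ∃ (h : x ∈ A1) (y : A), F ⟨x, h⟩ = Sum.inl y
  let f : A → A := fun x => if h : ∃ (h : x ∈ A1) (y : A), F ⟨x, h⟩ = Sum.inl y then
    h.choose_spec.choose else x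
  have hf : ∀ x ∈ P, ∃ h : x ∈ A1, F ⟨x, h⟩ = Sum.inl (f x) := by
    intro x hx
    have h := (Finset.mem_filter.1 hx).2
    refine ⟨h.choose, ?_⟩
    simp only [f, dif_pos h]
    exact h.choose_spec.choose_spec
  refine ⟨P, Finset.filter_subset _ _, f, ?_, ?_, ?_⟩
  · intro x hx y hy hxy
    obtain ⟨h1, h2⟩ := hf x hx
    obtain ⟨h3, h4⟩ := hf y hy
    have h5 : F ⟨x, h1⟩ = F ⟨y, h3⟩ := by rw [h2, h4, hxy]
    exact congrArg Subtype.val (hF1 h5)
  · intro x hx
    obtain ⟨h1, h2⟩ := hf x hx
    have h3 := hF2 ⟨x, h1⟩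
    rw [h2] at h3
    simp only [t, Finset.mem_union, Finset.mem_map] at h3
    rcases h3 with ⟨y, hy, h4⟩ | ⟨y, hy, h4⟩
    · have h5 : y = f x := Sum.inl_injective h4
      rw [← h5]
      exact Finset.mem_filter.1 hy
    · simp at h4
  · have h1 : (A1 \ P).card ≤ d := by
      have h2 : ∀ x ∈ A1 \ P, ∃ i : Fin d, ∃ h : x ∈ A1, F ⟨x, h⟩ = Sum.inr i := by
        intro x hx
        rw [Finset.mem_sdiff] at hx
        rcases hz : F ⟨x, hx.1⟩ with y | i
        · exact absurd (Finset.mem_filter.2 ⟨hx.1, hx.1, y, hz⟩) hx.2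
        · exact ⟨i, hx.1, hz⟩
      choose g hg using h2
      have h3 : Fintype.card {x // x ∈ A1 \ P} ≤ Fintype.card (Fin d) := by
        apply Fintype.card_le_of_injective (fun x : {x // x ∈ A1 \ P} => g x.1 x.2)
        intro x y hxy
        obtain ⟨h4, h5⟩ := hg x.1 x.2
        obtain ⟨h6, h7⟩ := hg y.1 y.2
        simp only at hxy
        have h8 : F ⟨x.1, h4⟩ = F ⟨y.1, h6⟩ := by rw [h5, h7, hxy]
        have h9 := hF1 h8
        exact Subtype.ext (congrArg (fun z : {a // a ∈ A1} => (z : A)) h9)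
      rwa [Fintype.card_coe, Fintype.card_fin] at h3
    have h2 := Finset.card_sdiff_add_card_eq_card (Finset.filter_subset (fun x =>
      ∃ (h : x ∈ A1) (y : A), F ⟨x, h⟩ = Sum.inl y) A1)
    change (A1 \ P).card + P.card = A1.card at h2
    omega

end Hall

section Pair
variable {A B : Type*} [Fintype A] [DecidableEq A] [DecidableEq B]

lemma card_le_of_match (n : ℕ) (N : A → Finset B) (hcard : Fintype.card A = 2 * n)
    (hpair : ∀ e : Fin n × Fin 2 ≃ A, ∃ k : Fin n → B, Function.Injective k ∧
      ∀ s, k s ∈ N (e (s, 0)) ∧ k s ∈ N (e (s, 1)))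
    (T : Finset B) (P : Finset A) (f : A → A) (hinj : Set.InjOn f P) (hdisj : ∀ x ∈ P, f x ∉ P)
    (hT : ∀ x ∈ P, N x ∩ N (f x) ⊆ T) : P.card ≤ T.card := by
  classical
  rcases P.eq_empty_or_nonempty with rfl | ⟨a0, ha0⟩
  · simp
  have hk : 2 * P.card ≤ 2 * n := by
    rw [← hcard, ← Finset.card_univ]
    have h1 : P ∪ P.image f ⊆ univ := Finset.subset_univ _
    have h2 := Finset.card_le_card h1
    rw [Finset.card_union_of_disjoint, Finset.card_image_of_injOn hinj] at h2
    · omega
    · rw [Finset.disjoint_left]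
      intro z hz1 hz2
      obtain ⟨x, hx, rfl⟩ := Finset.mem_image.1 hz2
      exact hdisj x hx hz1
  let g0 : Fin n × Fin 2 → A := fun z =>
    if h : z.1.1 < P.card then
      (if z.2 = 0 then (P.equivFin.symm ⟨z.1.1, h⟩ : A) else f (P.equivFin.symm ⟨z.1.1, h⟩ : A))
    else a0
  let S0 : Finset (Fin n × Fin 2) := univ.filter fun z => z.1.1 < P.card
  obtain ⟨g, hg⟩ := Finset.exists_equiv_extend_of_card_eq (α := Fin n × Fin 2) (β := A)
    (t := univ) (by rw [Finset.card_univ, hcard]; simp [mul_comm]) (s := S0) (f := g0)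
    (Finset.subset_univ _) (by
      rintro ⟨i, l⟩ hz ⟨i', l'⟩ hz' h
      have h1 : i.1 < P.card := (Finset.mem_filter.1 hz).2
      have h1' : i'.1 < P.card := (Finset.mem_filter.1 hz').2
      simp only [g0, dif_pos h1, dif_pos h1'] at h
      have key : ∀ (u v : Fin P.card), (P.equivFin.symm u : A) ≠ f (P.equivFin.symm v : A) := by
        intro u v huv
        exact hdisj _ (P.equivFin.symm v).2 (huv ▸ (P.equivFin.symm u).2)
      fin_cases l <;> fin_cases l'
      · simp only [Fin.zero_eta, if_pos] at h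
        have h2 := P.equivFin.symm.injective (Subtype.ext h)
        simp only [Fin.mk.injEq] at h2
        simp [Fin.ext_iff, h2]
      · simp at h
        exact absurd h (key _ _)
      · simp at h
        exact absurd h.symm (key _ _)
      · simp at h
        have h2 := hinj (P.equivFin.symm _).2 (P.equivFin.symm _).2 h
        have h3 := P.equivFin.symm.injective (Subtype.ext h2)
        simp only [Fin.mk.injEq] at h3
        simp [Fin.ext_iff, h3])
  let e : Fin n × Fin 2 ≃ A := g.trans (Equiv.subtypeUnivEquiv Finset.mem_univ)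
  obtain ⟨k, hk1, hk2⟩ := hpair e
  have he : ∀ z ∈ S0, e z = g0 z := fun z hz => hg z hz
  let idx : Fin P.card → Fin n := fun i => ⟨i.1, by omega⟩
  have hidx : Function.Injective idx := fun i j h => by
    simp only [idx, Fin.mk.injEq] at h; exact Fin.ext h
  have h5 : ∀ i : Fin P.card, k (idx i) ∈ T := by
    intro i
    have h6 : ((idx i, 0) : Fin n × Fin 2) ∈ S0 := Finset.mem_filter.2 ⟨mem_univ _, i.2⟩
    have h7 : ((idx i, 1) : Fin n × Fin 2) ∈ S0 := Finset.mem_filter.2 ⟨mem_univ _, i.2⟩
    have h8 := hk2 (idx i)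
    rw [he _ h6, he _ h7] at h8
    have h9 : (idx i).1 < P.card := i.2
    simp only [g0, dif_pos h9] at h8
    simp only [if_true] at h8
    refine hT _ (P.equivFin.symm ⟨(idx i).1, h9⟩).2 (Finset.mem_inter.2 ⟨h8.1, ?_⟩)
    simpa using h8.2
  have h10 : (univ : Finset (Fin P.card)).card ≤ T.card :=
    Finset.card_le_card_of_injOn (fun i => k (idx i)) (fun i _ => h5 i)
      (fun i _ j _ h => hidx (hk1 h))
  simpa using h10

lemma rounding (n : ℕ) (N : A → Finset B) (hcard : Fintype.card A = 2 * n)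
    (hpair : ∀ e : Fin n × Fin 2 ≃ A, ∃ k : Fin n → B, Function.Injective k ∧
      ∀ s, k s ∈ N (e (s, 0)) ∧ k s ∈ N (e (s, 1)))
    (T : Finset B) (w : A → A → ℝ) (hsymm : ∀ i j, w i j = w j i) (h0 : ∀ i j, 0 ≤ w i j)
    (hT : ∀ i j, w i j ≠ 0 → N i ∩ N j ⊆ T)
    (E1 : ℝ) (hE1 : ∑ i, |∑ j, w i j - 1| ≤ E1) (Q : ℝ) (hQ : ∑ i, ∑ j, w i j ^ 2 ≤ Q) :
    (n : ℝ) - (E1 + √(2 * n * Q)) ≤ T.card := by
  classical
  have hcardR : (Fintype.card A : ℝ) = 2 * n := by rw [hcard]; push_cast; ring
  obtain ⟨σ, hσ⟩ := exists_signs w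
  let r : A → ℝ := fun i => ∑ j, w i j * (sg (σ i) * sg (σ j))
  let v : A → A → ℝ := fun i j => w i j * (1 - sg (σ i) * sg (σ j))
  have hv0 : ∀ i j, 0 ≤ v i j := by
    intro i j
    refine mul_nonneg (h0 i j) ?_
    cases h1 : σ i <;> cases h2 : σ j <;> simp [sg]
  have hvsymm : ∀ i j, v i j = v j i := by
    intro i j; simp only [v]; rw [hsymm]; ring
  have hvsame : ∀ i j, σ i = σ j → v i j = 0 := by
    intro i j h
    simp only [v]
    rw [h, sg_sq]; ring
  have hW : ∀ i, ∑ j, v i j = ∑ j, w i j - r i := by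
    intro i
    simp only [v, r]
    rw [← Finset.sum_sub_distrib]
    apply Finset.sum_congr rfl; intro j _; ring
  have hr : ∑ i, |r i| ≤ √(2 * n * Q) := by
    apply Real.le_sqrt_of_sq_le
    have h1 := sq_sum_le_card_mul_sum_sq (s := (univ : Finset A)) (f := fun i => |r i|)
    rw [Finset.card_univ, hcardR] at h1
    refine h1.trans ?_
    apply mul_le_mul_of_nonneg_left _ (by positivity)
    simp only [sq_abs]
    exact hσ.trans hQ
  set E : ℝ := ∑ i, |∑ j, v i j - 1| with hE
  have hEle : E ≤ E1 + √(2 * n * Q) := by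
    calc E ≤ ∑ i, (|∑ j, w i j - 1| + |r i|) := by
          apply Finset.sum_le_sum; intro i _
          rw [hW, show ∑ j, w i j - r i - 1 = (∑ j, w i j - 1) - r i by ring]
          exact abs_sub _ _
      _ ≤ _ := by rw [Finset.sum_add_distrib]; exact add_le_add hE1 hr
  have hE0 : 0 ≤ E := Finset.sum_nonneg fun i _ => abs_nonneg _
  -- the larger side
  obtain ⟨b, hb⟩ : ∃ b : Bool, n ≤ (univ.filter fun x => σ x = b).card := by
    by_contra hcon
    push Not at hcon
    have h1 := hcon true
    have h2 := hcon false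
    have h3 : (univ.filter fun x => σ x = true).card + (univ.filter fun x => σ x = false).card =
        Fintype.card A := by
      have h4 := Finset.card_filter_add_card_filter_not (s := (univ : Finset A)) (fun x => σ x = true)
      simp only [Bool.not_eq_true] at h4
      rw [h4, Finset.card_univ]
    omega
  set A1 := univ.filter fun x => σ x = b with hA1
  set A2 := univ.filter fun x => σ x ≠ b with hA2
  obtain ⟨P, hP, f, hf1, hf2, hf3⟩ := exists_matching_hall A1 A2 (fun x y => w x y ≠ 0) ⌊E⌋₊ (by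
    intro S hS
    set NS := A2.filter (fun y => ∃ x ∈ S, w x y ≠ 0) with hNS
    have hdisj : Disjoint S NS := by
      rw [Finset.disjoint_left]
      intro z hz1 hz2
      have h1 := (Finset.mem_filter.1 (hS hz1)).2
      have h2 := (Finset.mem_filter.1 (Finset.mem_filter.1 hz2).1).2
      exact h2 h1
    have h1 : ∑ x ∈ S, ∑ y, v x y ≤ ∑ y ∈ NS, ∑ x, v y x := by
      calc ∑ x ∈ S, ∑ y, v x y = ∑ x ∈ S, ∑ y ∈ NS, v x y := by
            apply Finset.sum_congr rfl; intro x hx
            symm
            apply Finset.sum_subset (Finset.subset_univ _)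
            intro y _ hy
            by_contra hne
            apply hy
            refine Finset.mem_filter.2 ⟨Finset.mem_filter.2 ⟨mem_univ _, ?_⟩, x, hx, ?_⟩
            · intro hyb
              apply hne
              apply hvsame
              rw [(Finset.mem_filter.1 (hS hx)).2, hyb]
            · intro h2
              apply hne
              simp only [v, h2, zero_mul]
        _ = ∑ y ∈ NS, ∑ x ∈ S, v y x := by
            rw [Finset.sum_comm]
            apply Finset.sum_congr rfl; intro y _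
            apply Finset.sum_congr rfl; intro x _
            exact hvsymm x y
        _ ≤ _ := by
            apply Finset.sum_le_sum; intro y _
            exact Finset.sum_le_sum_of_subset_of_nonneg (Finset.subset_univ _)
              fun z _ _ => hv0 y z
    have h2 : (S.card : ℝ) ≤ NS.card + E := by
      have h3 : (S.card : ℝ) ≤ ∑ x ∈ S, (∑ y, v x y + |∑ y, v x y - 1|) := by
        rw [← nsmul_one S.card, ← Finset.sum_const]
        apply Finset.sum_le_sum; intro x _
        have := neg_abs_le (∑ y, v x y - 1)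
        linarith
      have h4 : ∑ y ∈ NS, ∑ x, v y x ≤ NS.card + ∑ y ∈ NS, |∑ x, v y x - 1| := by
        rw [← nsmul_one NS.card, ← Finset.sum_const, ← Finset.sum_add_distrib]
        apply Finset.sum_le_sum; intro x _
        have := le_abs_self (∑ y, v x y - 1)
        linarith
      have h5 : ∑ x ∈ S, |∑ y, v x y - 1| + ∑ y ∈ NS, |∑ x, v y x - 1| ≤ E := by
        rw [← Finset.sum_union hdisj]
        exact Finset.sum_le_sum_of_subset_of_nonneg (Finset.subset_univ _)
          fun z _ _ => abs_nonneg _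
      rw [Finset.sum_add_distrib] at h3
      linarith
    have h3 : S.card - NS.card ≤ ⌊E⌋₊ := by
      apply Nat.le_floor
      rcases le_total NS.card S.card with h | h
      · rw [Nat.cast_sub h]; linarith
      · rw [Nat.sub_eq_zero_of_le h]; simpa using hE0
    omega)
  have h1 := card_le_of_match n N hcard hpair T P f hf1 (by
    intro x hx hfx
    have h2 := (Finset.mem_filter.1 (hP hfx)).2
    exact (Finset.mem_filter.1 (hf2 x hx).1).2 h2) (fun x hx => hT _ _ (hf2 x hx).2)
  have h2 : (⌊E⌋₊ : ℝ) ≤ E := Nat.floor_le hE0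
  have h3 : (n : ℝ) ≤ P.card + (⌊E⌋₊ : ℝ) := by exact_mod_cast hb.trans hf3
  have h4 : (P.card : ℝ) ≤ T.card := by exact_mod_cast h1
  linarith

end Pair

end Pool.Agent.KS6_44.VL
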