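import Mathlib
import Pool.Agent.KS6_44.VL.Fix

set_option linter.unusedSectionVars false

open Finset

namespace Pool.Agent.KS6_44.VL

variable {A B : Type*} [Fintype A] [DecidableEq A] [Fintype B] [DecidableEq B]

/-- the weight of the block `b` -/
noncomputable def Sb (N : A → Finset B) (p : A → ℝ) (b : B) : ℝ :=
  ∑ a, if b ∈ N a then p a else 0

/-- the sum of the inverse weights of the common blocks -/
noncomputable def Cp (N : A → Finset B) (η : ℝ) (p : A → ℝ) (i j : A) : ℝ :=
  ∑ b ∈ N i ∩ N j, (Sb N p b + η)⁻¹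

/-- unnormalised weight of a pair -/
noncomputable def gg (N : A → Finset B) (η K : ℝ) (p : A → ℝ) (i j : A) : ℝ :=
  p i * p j * max 0 (K - Cp N η p i j)

lemma Sb_nonneg (N : A → Finset B) {p : A → ℝ} (hp : ∀ a, 0 ≤ p a) (b : B) : 0 ≤ Sb N p b :=
  Finset.sum_nonneg fun a _ => by split_ifs <;> simp [hp a]

lemma Cp_symm (N : A → Finset B) (η : ℝ) (p : A → ℝ) (i j : A) : Cp N η p i j = Cp N η p j i := by
  unfold Cp; rw [Finset.inter_comm]

lemma gg_symm (N : A → Finset B) (η K : ℝ) (p : A → ℝ) (i j : A) :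
    gg N η K p i j = gg N η K p j i := by
  unfold gg; rw [Cp_symm]; ring

lemma gg_nonneg (N : A → Finset B) (η K : ℝ) {p : A → ℝ} (hp : ∀ a, 0 ≤ p a) (i j : A) :
    0 ≤ gg N η K p i j :=
  mul_nonneg (mul_nonneg (hp i) (hp j)) (le_max_left _ _)

lemma sum_Sb_le (N : A → Finset B) {D : ℝ} (hdeg : ∀ a, ((N a).card : ℝ) ≤ D) {p : A → ℝ}
    (hp : p ∈ stdSimplex ℝ A) : ∑ b, Sb N p b ≤ D := by
  unfold Sb
  rw [Finset.sum_comm]
  have h1 : ∀ a, ∑ b : B, (if b ∈ N a then p a else 0) = (N a).card * p a := by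
    intro a
    rw [← Finset.sum_filter, Finset.sum_const, nsmul_eq_mul]
    simp
  rw [Finset.sum_congr rfl fun a _ => h1 a]
  calc ∑ a, ((N a).card : ℝ) * p a ≤ ∑ a, D * p a :=
        Finset.sum_le_sum fun a _ => mul_le_mul_of_nonneg_right (hdeg a) (hp.1 a)
    _ = D := by rw [← Finset.mul_sum, hp.2, mul_one]

lemma cost_avg (N : A → Finset B) {η : ℝ} (hη : 0 < η) {p : A → ℝ} (hp : p ∈ stdSimplex ℝ A)
    (i : A) : ∑ j, p j * Cp N η p i j ≤ (N i).card := by
  have h1 : ∑ j, p j * Cp N η p i j = ∑ b ∈ N i, Sb N p b * (Sb N p b + η)⁻¹ := by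
    calc ∑ j, p j * Cp N η p i j
        = ∑ j, ∑ b ∈ N i, (if b ∈ N j then p j else 0) * (Sb N p b + η)⁻¹ := by
          apply Finset.sum_congr rfl; intro j _
          unfold Cp
          rw [Finset.mul_sum, ← Finset.filter_mem_eq_inter, Finset.sum_filter]
          apply Finset.sum_congr rfl; intro b _
          split_ifs <;> simp
      _ = ∑ b ∈ N i, ∑ j, (if b ∈ N j then p j else 0) * (Sb N p b + η)⁻¹ := Finset.sum_comm
      _ = _ := by
          apply Finset.sum_congr rfl; intro b _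
          rw [← Finset.sum_mul]; rfl
  rw [h1]
  calc ∑ b ∈ N i, Sb N p b * (Sb N p b + η)⁻¹ ≤ ∑ b ∈ N i, (1 : ℝ) := by
        apply Finset.sum_le_sum; intro b _
        have h0 := Sb_nonneg N hp.1 b
        rw [← div_eq_mul_inv, div_le_one (by linarith)]
        linarith
    _ = (N i).card := by simp

lemma sum_gg_ge (N : A → Finset B) {η K D : ℝ} (hη : 0 < η) (hdeg : ∀ a, ((N a).card : ℝ) ≤ D)
    {p : A → ℝ} (hp : p ∈ stdSimplex ℝ A) :
    K - D ≤ ∑ i, ∑ j, gg N η K p i j := by
  have h1 : ∑ i, ∑ j, p i * p j * (K - Cp N η p i j) ≤ ∑ i, ∑ j, gg N η K p i j := by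
    apply Finset.sum_le_sum; intro i _
    apply Finset.sum_le_sum; intro j _
    exact mul_le_mul_of_nonneg_left (le_max_right _ _) (mul_nonneg (hp.1 i) (hp.1 j))
  have h2 : ∑ i, ∑ j, p i * p j * (K - Cp N η p i j) =
      K - ∑ i, p i * ∑ j, p j * Cp N η p i j := by
    have h3 : ∀ i, ∑ j, p i * p j * (K - Cp N η p i j) =
        p i * K * ∑ j, p j - p i * ∑ j, p j * Cp N η p i j := by
      intro i
      rw [Finset.mul_sum, Finset.mul_sum, ← Finset.sum_sub_distrib]
      apply Finset.sum_congr rfl; intro j _; ring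
    rw [Finset.sum_congr rfl fun i _ => h3 i, Finset.sum_sub_distrib, hp.2]
    congr 1
    rw [← Finset.sum_mul, ← Finset.sum_mul, hp.2]; ring
  have h4 : ∑ i, p i * ∑ j, p j * Cp N η p i j ≤ D := by
    calc ∑ i, p i * ∑ j, p j * Cp N η p i j ≤ ∑ i, p i * D :=
          Finset.sum_le_sum fun i _ => mul_le_mul_of_nonneg_left
            ((cost_avg N hη hp i).trans (hdeg i)) (hp.1 i)
      _ = D := by rw [← Finset.sum_mul, hp.2, one_mul]
  linarith

lemma Cp_nonneg (N : A → Finset B) {η : ℝ} (hη : 0 < η) {p : A → ℝ} (hp : ∀ a, 0 ≤ p a)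
    (i j : A) : 0 ≤ Cp N η p i j :=
  Finset.sum_nonneg fun b _ => inv_nonneg.2 (by have := Sb_nonneg N hp b; linarith)

lemma gg_le (N : A → Finset B) {η K : ℝ} (hη : 0 < η) (hK : 0 ≤ K) {p : A → ℝ}
    (hp : ∀ a, 0 ≤ p a) (i j : A) : gg N η K p i j ≤ p i * p j * K := by
  unfold gg
  apply mul_le_mul_of_nonneg_left _ (mul_nonneg (hp i) (hp j))
  have := Cp_nonneg N hη hp i j
  exact max_le hK (by linarith)

lemma Cp_cont (N : A → Finset B) {η : ℝ} (hη : 0 < η) (i j : A) :
    ContinuousOn (fun p : A → ℝ => Cp N η p i j) (stdSimplex ℝ A) := by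
  unfold Cp
  refine continuousOn_finsetSum _ fun b _ => ?_
  refine ContinuousOn.inv₀ ?_ ?_
  · refine ContinuousOn.add ?_ continuousOn_const
    unfold Sb
    refine continuousOn_finsetSum _ fun a _ => ?_
    split_ifs
    · exact (continuous_apply a).continuousOn
    · exact continuousOn_const
  · intro p hp
    have := Sb_nonneg N hp.1 b
    linarith

lemma gg_cont (N : A → Finset B) {η : ℝ} (K : ℝ) (hη : 0 < η) (i j : A) :
    ContinuousOn (fun p : A → ℝ => gg N η K p i j) (stdSimplex ℝ A) := by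
  unfold gg
  exact (((continuous_apply i).continuousOn).mul ((continuous_apply j).continuousOn)).mul
    (ContinuousOn.sup continuousOn_const (continuousOn_const.sub (Cp_cont N hη i j)))

/-- **Selection.** There is a distribution `p` on the vertices and a symmetric stochastic matrix
`w`, with entries at most a multiple of `p i * p j`, supported on pairs of small cost. -/
theorem select [Nonempty A] (N : A → Finset B) {η K D : ℝ} (hη : 0 < η)
    (hdeg : ∀ a, ((N a).card : ℝ) ≤ D) (hD : 0 ≤ D) (hK : D < K) :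
    ∃ p ∈ stdSimplex ℝ A, ∃ w : A → A → ℝ, (∀ i j, w i j = w j i) ∧ (∀ i j, 0 ≤ w i j) ∧
      (∀ i, ∑ j, w i j = 1) ∧
      (∀ i j, w i j ≤ Fintype.card A * (K / (K - D)) * (p i * p j)) ∧
      ∀ i j, w i j ≠ 0 → Cp N η p i j ≤ K := by
  have hcard : (0 : ℝ) < Fintype.card A := by exact_mod_cast Fintype.card_pos
  let G : (A → ℝ) → ℝ := fun p => ∑ i, ∑ j, gg N η K p i j
  let m : (A → ℝ) → (A → ℝ) := fun p i => (∑ j, gg N η K p i j) / G p
  have hG : ∀ p ∈ stdSimplex ℝ A, K - D ≤ G p := fun p hp => sum_gg_ge N hη hdeg hp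
  have hGpos : ∀ p ∈ stdSimplex ℝ A, 0 < G p := fun p hp => by have := hG p hp; linarith
  obtain ⟨p, hp, hm⟩ := exists_eq_of_face m
    (by
      rw [continuousOn_pi]
      intro i
      refine ContinuousOn.div (continuousOn_finsetSum _ fun j _ => gg_cont N K hη i j)
        (continuousOn_finsetSum _ fun i _ => continuousOn_finsetSum _ fun j _ => gg_cont N K hη i j)
        fun p hp => (hGpos p hp).ne')
    (by
      intro p hp
      constructor
      · intro i
        exact div_nonneg (Finset.sum_nonneg fun j _ => gg_nonneg N η K hp.1 i j) (hGpos p hp).le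
      · simp only [m]
        rw [← Finset.sum_div, div_self (hGpos p hp).ne'])
    (by
      intro p hp i hi
      simp only [m]
      rw [Finset.sum_eq_zero, zero_div]
      intro j _
      unfold gg; rw [hi]; ring)
    (fun _ => (Fintype.card A : ℝ)⁻¹)
    (by
      constructor
      · intro i; positivity
      · rw [Finset.sum_const, Finset.card_univ, nsmul_eq_mul, mul_inv_cancel₀ hcard.ne'])
    (fun i => by positivity)
  have hGp := hGpos p hp
  refine ⟨p, hp, fun i j => Fintype.card A * (gg N η K p i j / G p), ?_, ?_, ?_, ?_, ?_⟩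
  · intro i j; simp only [gg_symm N η K p i j]
  · intro i j
    exact mul_nonneg hcard.le (div_nonneg (gg_nonneg N η K hp.1 i j) hGp.le)
  · intro i
    rw [← Finset.mul_sum, ← Finset.sum_div]
    have h1 := congrFun hm i
    simp only [m] at h1
    rw [h1, mul_inv_cancel₀ hcard.ne']
  · intro i j
    rw [mul_assoc]
    apply mul_le_mul_of_nonneg_left _ hcard.le
    have h1 := gg_le N hη (hD.trans hK.le) hp.1 i j
    have h2 := hG p hp
    have h3 : 0 < K - D := by linarith
    have h4 : 0 ≤ p i * p j * K := mul_nonneg (mul_nonneg (hp.1 i) (hp.1 j)) (by linarith)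
    calc gg N η K p i j / G p ≤ (p i * p j * K) / (K - D) := div_le_div₀ h4 h1 h3 h2
      _ = _ := by ring
  · intro i j hij
    by_contra hcon
    apply hij
    have h1 : K - Cp N η p i j ≤ 0 := by push Not at hcon; linarith
    have h2 : gg N η K p i j = 0 := by unfold gg; rw [max_eq_left h1, mul_zero]
    simp only [h2, zero_div, mul_zero]

end Pool.Agent.KS6_44.VL
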