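import Mathlib
import Pool.Agent.KS6_44.VL.Select

set_option linter.unusedSectionVars false

open Finset

namespace Pool.Agent.KS6_44.VL

section Prob
variable {B : Type*} [Fintype B] [DecidableEq B]

/-- product weight of a subset -/
noncomputable def wt (p : B → ℝ) (T : Finset B) : ℝ :=
  (∏ b ∈ T, p b) * ∏ b ∈ univ \ T, (1 - p b)

lemma wt_nonneg {p : B → ℝ} (h0 : ∀ b, 0 ≤ p b) (h1 : ∀ b, p b ≤ 1) (T : Finset B) :
    0 ≤ wt p T :=
  mul_nonneg (prod_nonneg fun b _ => h0 b) (prod_nonneg fun b _ => by linarith [h1 b])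

lemma sum_wt_subset (p : B → ℝ) (S : Finset B) :
    ∑ T : Finset B, wt p T * (if S ⊆ T then 1 else 0) = ∏ b ∈ S, p b := by
  classical
  have key : ∀ T : Finset B, wt p T * (if S ⊆ T then 1 else 0) =
      (∏ b ∈ T, p b) * ∏ b ∈ univ \ T, (if b ∈ S then 0 else 1 - p b) := by
    intro T
    by_cases h : S ⊆ T
    · rw [if_pos h, mul_one, wt]
      congr 1
      apply Finset.prod_congr rfl
      intro b hb
      have : b ∉ S := fun hbS => (Finset.mem_sdiff.1 hb).2 (h hbS)
      simp [this]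
    · rw [if_neg h, mul_zero]
      obtain ⟨b, hbS, hbT⟩ := Finset.not_subset.1 h
      symm
      apply mul_eq_zero_of_right
      apply Finset.prod_eq_zero (i := b)
      · simp [hbT]
      · simp [hbS]
  rw [Finset.sum_congr rfl fun T _ => key T]
  have := Finset.prod_add p (fun b => if b ∈ S then 0 else 1 - p b) (univ : Finset B)
  rw [Finset.powerset_univ] at this
  rw [← this]
  have h2 : ∀ b, p b + (if b ∈ S then 0 else 1 - p b) = if b ∈ S then p b else 1 := by
    intro b; split_ifs <;> ring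
  rw [Finset.prod_congr rfl fun b _ => h2 b, Finset.prod_ite]
  simp

lemma sum_wt (p : B → ℝ) : ∑ T : Finset B, wt p T = 1 := by
  have := sum_wt_subset p ∅
  simpa using this

lemma sum_wt_card (p : B → ℝ) : ∑ T : Finset B, wt p T * (T.card : ℝ) = ∑ b, p b := by
  have h : ∀ T : Finset B, (T.card : ℝ) = ∑ b : B, (if ({b} : Finset B) ⊆ T then (1:ℝ) else 0) := by
    intro T
    simp
  calc ∑ T : Finset B, wt p T * (T.card : ℝ)
      = ∑ T : Finset B, ∑ b : B, wt p T * (if ({b} : Finset B) ⊆ T then (1:ℝ) else 0) := by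
        apply Finset.sum_congr rfl; intro T _; rw [h T, Finset.mul_sum]
    _ = ∑ b : B, ∑ T : Finset B, wt p T * (if ({b} : Finset B) ⊆ T then (1:ℝ) else 0) :=
        Finset.sum_comm
    _ = ∑ b, p b := by
        apply Finset.sum_congr rfl; intro b _; rw [sum_wt_subset]; simp

/-- averaging -/
lemma exists_lt_one {p : B → ℝ} (h0 : ∀ b, 0 ≤ p b) (h1 : ∀ b, p b ≤ 1) (Z : Finset B → ℝ)
    (hZ : ∑ T : Finset B, wt p T * Z T < 1) : ∃ T : Finset B, Z T < 1 := by
  by_contra hcon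
  push Not at hcon
  have : ∑ T : Finset B, wt p T * 1 ≤ ∑ T : Finset B, wt p T * Z T :=
    Finset.sum_le_sum fun T _ => mul_le_mul_of_nonneg_left (hcon T) (wt_nonneg h0 h1 T)
  rw [← Finset.sum_mul, sum_wt] at this
  linarith


lemma sum_wt_two (p : B → ℝ) (S S' : Finset B) :
    ∑ T : Finset B, wt p T * ((if S ⊆ T then 1 else 0) * (if S' ⊆ T then 1 else 0)) =
      ∏ b ∈ S ∪ S', p b := by
  rw [← sum_wt_subset]
  apply Finset.sum_congr rfl
  intro T _
  congr 1
  by_cases h1 : S ⊆ T <;> by_cases h2 : S' ⊆ T <;> simp [h1, h2, Finset.union_subset_iff]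

/-- weighted second moment identity -/
lemma second_moment_w {A : Type*} [DecidableEq A] (p : B → ℝ) (F : Finset A) (ω : A → ℝ)
    (S : A → Finset B) (hpos : ∀ b, 0 < p b) :
    ∑ T : Finset B, wt p T *
      ((∑ y ∈ F, ω y * ((∏ b ∈ S y, p b)⁻¹ * (if S y ⊆ T then 1 else 0))) - ∑ y ∈ F, ω y) ^ 2
      = ∑ y ∈ F, ∑ z ∈ F, ω y * ω z * ((∏ b ∈ S y ∩ S z, p b)⁻¹ - 1) := by
  have hP : ∀ y, 0 < ∏ b ∈ S y, p b := fun y => prod_pos fun b _ => hpos b
  have h1 : ∑ T : Finset B, wt p T *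
      (∑ y ∈ F, ω y * ((∏ b ∈ S y, p b)⁻¹ * (if S y ⊆ T then 1 else 0))) = ∑ y ∈ F, ω y := by
    calc _ = ∑ T : Finset B, ∑ y ∈ F, (ω y * (∏ b ∈ S y, p b)⁻¹) *
            (wt p T * (if S y ⊆ T then 1 else 0)) := by
          apply Finset.sum_congr rfl; intro T _
          rw [Finset.mul_sum]; apply Finset.sum_congr rfl; intro y _; ring
      _ = ∑ y ∈ F, ∑ T : Finset B, (ω y * (∏ b ∈ S y, p b)⁻¹) *
            (wt p T * (if S y ⊆ T then 1 else 0)) :=
          Finset.sum_comm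
      _ = ∑ y ∈ F, ω y := by
          apply Finset.sum_congr rfl; intro y hy
          rw [← Finset.mul_sum, sum_wt_subset, mul_assoc, inv_mul_cancel₀ (hP y).ne', mul_one]
  have h2 : ∑ T : Finset B, wt p T *
      (∑ y ∈ F, ω y * ((∏ b ∈ S y, p b)⁻¹ * (if S y ⊆ T then 1 else 0))) ^ 2 =
      ∑ y ∈ F, ∑ z ∈ F, ω y * ω z * (∏ b ∈ S y ∩ S z, p b)⁻¹ := by
    calc _ = ∑ T : Finset B, ∑ y ∈ F, ∑ z ∈ F,
            (ω y * ω z * ((∏ b ∈ S y, p b)⁻¹ * (∏ b ∈ S z, p b)⁻¹)) *
            (wt p T * ((if S y ⊆ T then 1 else 0) * (if S z ⊆ T then 1 else 0))) := by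
          apply Finset.sum_congr rfl; intro T _
          rw [sq, Finset.sum_mul_sum, Finset.mul_sum]
          apply Finset.sum_congr rfl; intro y _
          rw [Finset.mul_sum]
          apply Finset.sum_congr rfl; intro z _; ring
      _ = ∑ y ∈ F, ∑ z ∈ F, ∑ T : Finset B,
            (ω y * ω z * ((∏ b ∈ S y, p b)⁻¹ * (∏ b ∈ S z, p b)⁻¹)) *
            (wt p T * ((if S y ⊆ T then 1 else 0) * (if S z ⊆ T then 1 else 0))) := by
          rw [Finset.sum_comm]
          apply Finset.sum_congr rfl; intro y _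
          rw [Finset.sum_comm]
      _ = _ := by
          apply Finset.sum_congr rfl; intro y hy
          apply Finset.sum_congr rfl; intro z hz
          rw [← Finset.mul_sum, sum_wt_two]
          have h3 := Finset.prod_union_inter (s₁ := S y) (s₂ := S z) (f := p)
          have hi : 0 < ∏ b ∈ S y ∩ S z, p b := prod_pos fun b _ => hpos b
          have hy' := hP y
          have hz' := hP z
          rw [← mul_inv, ← h3, mul_inv]
          have hu : 0 < ∏ b ∈ S y ∪ S z, p b := prod_pos fun b _ => hpos b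
          field_simp
  have h3 : ∀ T : Finset B, wt p T *
      ((∑ y ∈ F, ω y * ((∏ b ∈ S y, p b)⁻¹ * (if S y ⊆ T then 1 else 0))) - ∑ y ∈ F, ω y) ^ 2 =
      wt p T * (∑ y ∈ F, ω y * ((∏ b ∈ S y, p b)⁻¹ * (if S y ⊆ T then 1 else 0))) ^ 2
      - 2 * (∑ y ∈ F, ω y) *
        (wt p T * (∑ y ∈ F, ω y * ((∏ b ∈ S y, p b)⁻¹ * (if S y ⊆ T then 1 else 0))))
      + (∑ y ∈ F, ω y) ^ 2 * wt p T := by intro T; ring
  rw [Finset.sum_congr rfl fun T _ => h3 T, Finset.sum_add_distrib, Finset.sum_sub_distrib,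
    ← Finset.mul_sum, ← Finset.mul_sum, h1, h2, sum_wt]
  simp only [mul_sub, mul_one, Finset.sum_sub_distrib, ← Finset.mul_sum, ← Finset.sum_mul]
  ring

end Prob

section Keep
variable {A B : Type*} [Fintype A] [DecidableEq A] [Fintype B] [DecidableEq B]

/-- the probability of keeping the block `b` -/
noncomputable def prb (N : A → Finset B) (η κ : ℝ) (p : A → ℝ) (b : B) : ℝ :=
  min 1 (κ * (Sb N p b + η))

lemma prb_pos (N : A → Finset B) {η κ : ℝ} (hη : 0 < η) (hκ : 0 < κ) {p : A → ℝ}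
    (hp : ∀ a, 0 ≤ p a) (b : B) : 0 < prb N η κ p b :=
  lt_min one_pos (mul_pos hκ (by linarith [Sb_nonneg N hp b]))

lemma prb_le_one (N : A → Finset B) (η κ : ℝ) (p : A → ℝ) (b : B) : prb N η κ p b ≤ 1 :=
  min_le_left _ _

lemma neg_log_prb (N : A → Finset B) {η κ : ℝ} (hη : 0 < η) (hκ : 0 < κ) {p : A → ℝ}
    (hp : ∀ a, 0 ≤ p a) (b : B) :
    -Real.log (prb N η κ p b) ≤ (Real.exp 1 * κ)⁻¹ * (Sb N p b + η)⁻¹ := by
  have h0 : 0 < Sb N p b + η := by linarith [Sb_nonneg N hp b]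
  have he := Real.exp_pos 1
  unfold prb
  rcases le_total 1 (κ * (Sb N p b + η)) with h | h
  · rw [min_eq_left h, Real.log_one, neg_zero]; positivity
  · rw [min_eq_right h]
    have hx : 0 < κ * (Sb N p b + η) := by positivity
    have h1 := Real.log_le_sub_one_of_pos (x := (Real.exp 1 * (κ * (Sb N p b + η)))⁻¹)
      (by positivity)
    rw [Real.log_inv, Real.log_mul he.ne' hx.ne', Real.log_exp] at h1
    have h2 : (Real.exp 1 * κ)⁻¹ * (Sb N p b + η)⁻¹ = (Real.exp 1 * (κ * (Sb N p b + η)))⁻¹ := by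
      rw [← mul_inv, mul_assoc]
    rw [h2]; linarith

lemma inv_prod_prb_le (N : A → Finset B) {η κ : ℝ} (hη : 0 < η) (hκ : 0 < κ) {p : A → ℝ}
    (hp : ∀ a, 0 ≤ p a) {S' S : Finset B} (hS : S' ⊆ S) :
    (∏ b ∈ S', prb N η κ p b)⁻¹ ≤
      Real.exp ((Real.exp 1 * κ)⁻¹ * ∑ b ∈ S, (Sb N p b + η)⁻¹) := by
  have h1 : (∏ b ∈ S', prb N η κ p b)⁻¹ = Real.exp (∑ b ∈ S', -Real.log (prb N η κ p b)) := by
    rw [Real.exp_sum, ← Finset.prod_inv_distrib]
    apply Finset.prod_congr rfl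
    intro b _
    rw [Real.exp_neg, Real.exp_log (prb_pos N hη hκ hp b)]
  rw [h1]
  apply Real.exp_le_exp.2
  rw [Finset.mul_sum]
  calc ∑ b ∈ S', -Real.log (prb N η κ p b)
      ≤ ∑ b ∈ S', (Real.exp 1 * κ)⁻¹ * (Sb N p b + η)⁻¹ :=
        Finset.sum_le_sum fun b _ => neg_log_prb N hη hκ hp b
    _ ≤ ∑ b ∈ S, (Real.exp 1 * κ)⁻¹ * (Sb N p b + η)⁻¹ := by
        apply Finset.sum_le_sum_of_subset_of_nonneg hS
        intro b _ _
        have h0 : 0 < Sb N p b + η := by linarith [Sb_nonneg N hp b]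
        have he := Real.exp_pos 1
        positivity

/-- the variance of a row -/
lemma var_le (N : A → Finset B) {η κ : ℝ} (hη : 0 < η) (hκ : 0 < κ) {p : A → ℝ}
    (hp : ∀ a, 0 ≤ p a) (i : A) {D c L : ℝ} (hD : ((N i).card : ℝ) ≤ D) (F : Finset A) (ω : A → ℝ)
    (h0 : ∀ y ∈ F, 0 ≤ ω y) (hω : ∀ y ∈ F, ω y ≤ c * p y) (hc : 0 ≤ c) (hL0 : 0 ≤ L)
    (hL : ∀ y ∈ F, ω y ≠ 0 → ∀ S' ⊆ N i ∩ N y, (∏ b ∈ S', prb N η κ p b)⁻¹ ≤ L) :
    ∑ y ∈ F, ∑ z ∈ F, ω y * ω z *
      ((∏ b ∈ (N i ∩ N y) ∩ (N i ∩ N z), prb N η κ p b)⁻¹ - 1) ≤ L * D * (c / κ) ^ 2 := by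
  classical
  set E := (N i).filter fun b => prb N η κ p b < 1 with hE
  have h1 : ∀ y ∈ F, ∀ z ∈ F, ω y * ω z *
      ((∏ b ∈ (N i ∩ N y) ∩ (N i ∩ N z), prb N η κ p b)⁻¹ - 1) ≤
      L * ∑ b ∈ E, (if b ∈ N y then ω y else 0) * (if b ∈ N z then ω z else 0) := by
    intro y hy z hz
    have h2 : ∀ b ∈ E, 0 ≤ (if b ∈ N y then ω y else 0) * (if b ∈ N z then ω z else 0) := by
      intro b _
      apply mul_nonneg
      · split_ifs; exacts [h0 y hy, le_rfl]
      · split_ifs; exacts [h0 z hz, le_rfl]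
    by_cases h : ∃ b ∈ (N i ∩ N y) ∩ (N i ∩ N z), prb N η κ p b < 1
    · obtain ⟨b, hb, hb1⟩ := h
      simp only [Finset.mem_inter] at hb
      have hbE : b ∈ E := Finset.mem_filter.2 ⟨hb.1.1, hb1⟩
      have h3 := Finset.single_le_sum h2 hbE
      rw [if_pos hb.1.2, if_pos hb.2.2] at h3
      by_cases hω0 : ω y = 0
      · have h6 := mul_nonneg hL0 (Finset.sum_nonneg h2)
        refine le_trans (le_of_eq ?_) h6
        rw [hω0, zero_mul, zero_mul]
      · have h4 := hL y hy hω0 _ (Finset.inter_subset_left (s₁ := N i ∩ N y) (s₂ := N i ∩ N z))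
        calc _ ≤ ω y * ω z * L := by
              apply mul_le_mul_of_nonneg_left _ (mul_nonneg (h0 y hy) (h0 z hz))
              linarith
          _ = L * (ω y * ω z) := by ring
          _ ≤ _ := mul_le_mul_of_nonneg_left h3 hL0
    · push Not at h
      have h3 : ∏ b ∈ (N i ∩ N y) ∩ (N i ∩ N z), prb N η κ p b = 1 :=
        Finset.prod_eq_one fun b hb => le_antisymm (prb_le_one _ _ _ _ _) (h b hb)
      rw [h3, inv_one, sub_self, mul_zero]
      exact mul_nonneg hL0 (Finset.sum_nonneg h2)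
  calc _ ≤ ∑ y ∈ F, ∑ z ∈ F,
        L * ∑ b ∈ E, (if b ∈ N y then ω y else 0) * (if b ∈ N z then ω z else 0) :=
        Finset.sum_le_sum fun y hy => Finset.sum_le_sum fun z hz => h1 y hy z hz
    _ = L * ∑ b ∈ E, (∑ y ∈ F, if b ∈ N y then ω y else 0) ^ 2 := by
        simp only [← Finset.mul_sum]
        congr 1
        have h5 : ∀ b, (∑ y ∈ F, if b ∈ N y then ω y else 0) ^ 2 =
            ∑ y ∈ F, ∑ z ∈ F, (if b ∈ N y then ω y else 0) * (if b ∈ N z then ω z else 0) := by
          intro b; rw [sq, Finset.sum_mul_sum]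
        simp only [h5]
        calc ∑ y ∈ F, ∑ z ∈ F, ∑ b ∈ E,
              (if b ∈ N y then ω y else 0) * (if b ∈ N z then ω z else 0)
            = ∑ y ∈ F, ∑ b ∈ E, ∑ z ∈ F,
              (if b ∈ N y then ω y else 0) * (if b ∈ N z then ω z else 0) := by
              apply Finset.sum_congr rfl; intro y _
              rw [Finset.sum_comm]
          _ = _ := by rw [Finset.sum_comm]
    _ ≤ L * ∑ b ∈ E, (c / κ) ^ 2 := by
        apply mul_le_mul_of_nonneg_left _ hL0
        apply Finset.sum_le_sum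
        intro b hb
        have hb1 : prb N η κ p b < 1 := (Finset.mem_filter.1 hb).2
        have hb2 : κ * (Sb N p b + η) < 1 := by
          unfold prb at hb1
          rcases min_lt_iff.1 hb1 with h | h
          · exact absurd h (lt_irrefl _)
          · exact h
        have hb3 : Sb N p b ≤ 1 / κ := by
          rw [le_div_iff₀ hκ]; nlinarith
        apply pow_le_pow_left₀
        · apply Finset.sum_nonneg; intro y hy
          split_ifs; exacts [h0 y hy, le_rfl]
        · calc (∑ y ∈ F, if b ∈ N y then ω y else 0)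
              ≤ ∑ y ∈ F, c * (if b ∈ N y then p y else 0) := by
                apply Finset.sum_le_sum; intro y hy
                split_ifs
                · exact hω y hy
                · simp
            _ = c * ∑ y ∈ F, (if b ∈ N y then p y else 0) := by rw [Finset.mul_sum]
            _ ≤ c * Sb N p b := by
                apply mul_le_mul_of_nonneg_left _ hc
                unfold Sb
                apply Finset.sum_le_sum_of_subset_of_nonneg (Finset.subset_univ _)
                intro y _ _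
                split_ifs; exacts [hp y, le_rfl]
            _ ≤ c * (1 / κ) := mul_le_mul_of_nonneg_left hb3 hc
            _ = c / κ := by ring
    _ = L * (E.card * (c / κ) ^ 2) := by rw [Finset.sum_const, nsmul_eq_mul]
    _ ≤ L * (D * (c / κ) ^ 2) := by
        apply mul_le_mul_of_nonneg_left _ hL0
        apply mul_le_mul_of_nonneg_right _ (sq_nonneg _)
        refine le_trans ?_ hD
        exact_mod_cast Finset.card_le_card (Finset.filter_subset _ _)
    _ = _ := by ring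

end Keep

end Pool.Agent.KS6_44.VL
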