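import Mathlib
import Pool.Agent.KS6_44.VL.Prob
import Pool.Agent.KS6_44.VL.Match

set_option linter.unusedSectionVars false

open Finset

namespace Pool.Agent.KS6_44.VL

variable {A B : Type*} [Fintype A] [DecidableEq A] [Fintype B] [DecidableEq B]

/-- the set of heavy points of a probability vector is small -/
lemma card_heavy_le {p : A → ℝ} (hp : p ∈ stdSimplex ℝ A) {θ : ℝ} (hθ : 0 < θ) :
    (((univ.filter fun i => ¬ p i ≤ θ).card : ℕ) : ℝ) ≤ 1 / θ := by
  rw [le_div_iff₀ hθ]
  calc (((univ.filter fun i => ¬ p i ≤ θ).card : ℕ) : ℝ) * θ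
      = ∑ i ∈ univ.filter (fun i => ¬ p i ≤ θ), θ := by rw [Finset.sum_const, nsmul_eq_mul]
    _ ≤ ∑ i ∈ univ.filter (fun i => ¬ p i ≤ θ), p i := by
        apply Finset.sum_le_sum; intro i hi
        have := (Finset.mem_filter.1 hi).2
        linarith
    _ ≤ ∑ i, p i := Finset.sum_le_sum_of_subset_of_nonneg (Finset.subset_univ _)
        fun i _ _ => hp.1 i
    _ = 1 := hp.2

lemma sum_prb_le (N : A → Finset B) {η κ D : ℝ} (hκ : 0 < κ)
    (hdeg : ∀ a, ((N a).card : ℝ) ≤ D) {p : A → ℝ} (hp : p ∈ stdSimplex ℝ A) :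
    ∑ b, prb N η κ p b ≤ κ * (D + Fintype.card B * η) := by
  calc ∑ b, prb N η κ p b ≤ ∑ b, κ * (Sb N p b + η) :=
        Finset.sum_le_sum fun b _ => min_le_right _ _
    _ = κ * (∑ b, Sb N p b + Fintype.card B * η) := by
        rw [← Finset.mul_sum, Finset.sum_add_distrib, Finset.sum_const, nsmul_eq_mul,
          Finset.card_univ]
    _ ≤ _ := by
        apply mul_le_mul_of_nonneg_left _ hκ.le
        linarith [sum_Sb_le N hdeg hp]

lemma lower_core (n : ℕ) (hn : 0 < n) (N : A → Finset B) (hcard : Fintype.card A = 2 * n)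
    (hpair : ∀ e : Fin n × Fin 2 ≃ A, ∃ k : Fin n → B, Function.Injective k ∧
      ∀ s, k s ∈ N (e (s, 0)) ∧ k s ∈ N (e (s, 1)))
    {D ε L θ : ℝ} (hε : 0 < ε) (hε1 : ε < 1) (hD : 0 < D)
    (hdeg : ∀ a, ((N a).card : ℝ) ≤ D) (hL1 : 1 ≤ L)
    (hL : (1 + ε) * D ^ 2 / (Real.exp 1 * ((1 - ε) * n)) ≤ Real.log L)
    (hθ : 0 < θ) (h1 : 32 / ε ≤ θ * n)
    (hv : L * D * (2 * (1 + ε) / ε * θ * (D / (1 - ε))) ^ 2 ≤ ε ^ 3 / 8192)
    (hμ : 2 * (1 + ε) / ε * n * θ ^ 2 * L ≤ ε ^ 2 / 384) : False := by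
  classical
  have hnR : (0 : ℝ) < n := by exact_mod_cast hn
  have : Nonempty A := Fintype.card_pos_iff.1 (by omega)
  have he := Real.exp_pos 1
  have hε' : 0 < 1 - ε := by linarith
  have hLpos : 0 < L := by linarith
  set m : ℝ := ((Fintype.card B : ℕ) : ℝ) with hm
  have hm0 : 0 ≤ m := by positivity
  set η : ℝ := ε * D / (4 * (m + 1)) with hη
  have hηpos : 0 < η := by positivity
  have hmη : m * η ≤ ε / 4 * D := by
    rw [hη]
    have : m * (ε * D / (4 * (m + 1))) = (m / (m + 1)) * (ε / 4 * D) := by field_simp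
    rw [this]
    have h2 : m / (m + 1) ≤ 1 := by rw [div_le_one (by positivity)]; linarith
    have h3 : 0 ≤ ε / 4 * D := by positivity
    nlinarith
  obtain ⟨p, hp, w, hsymm, h0, hrow, hle, hC⟩ := select N hηpos hdeg hD.le
    (show D < (1 + ε) * D by nlinarith)
  set C : ℝ := 2 * (1 + ε) / ε with hCdef
  have hCpos : 0 < C := by positivity
  have hwle : ∀ i j, w i j ≤ C * n * (p i * p j) := by
    intro i j
    refine (hle i j).trans (le_of_eq ?_)
    have : (1 + ε) * D - D = ε * D := by ring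
    rw [this, hcard, hCdef]
    push_cast
    field_simp
  set κ : ℝ := (1 - ε) * n / D with hκdef
  have hκ : 0 < κ := by positivity
  have hcost : ∀ i j, w i j ≠ 0 → ∀ S' ⊆ N i ∩ N j, (∏ b ∈ S', prb N η κ p b)⁻¹ ≤ L := by
    intro i j hij S' hS'
    refine (inv_prod_prb_le N hηpos hκ hp.1 hS').trans ?_
    rw [← Real.exp_log hLpos]
    apply Real.exp_le_exp.2
    refine le_trans ?_ hL
    have h2 := hC i j hij
    change ∑ b ∈ N i ∩ N j, (Sb N p b + η)⁻¹ ≤ (1 + ε) * D at h2
    calc (Real.exp 1 * κ)⁻¹ * ∑ b ∈ N i ∩ N j, (Sb N p b + η)⁻¹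
        ≤ (Real.exp 1 * κ)⁻¹ * ((1 + ε) * D) := mul_le_mul_of_nonneg_left h2 (by positivity)
      _ = _ := by rw [hκdef]; field_simp
  set v : ℝ := L * D * (C * n * θ / κ) ^ 2 with hvdef
  have hvpos : 0 < v := by positivity
  have hv' : v ≤ ε ^ 3 / 8192 := by
    refine le_trans (le_of_eq ?_) hv
    rw [hvdef, hκdef]
    congr 2
    field_simp
  set V : ℝ := 16 * n * v / ε with hVdef
  have hVpos : 0 < V := by positivity
  set G : Finset A := univ.filter fun i => p i ≤ θ with hG
  let P : A → A → ℝ := fun i j => (∏ b ∈ N i ∩ N j, prb N η κ p b)⁻¹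
  have hPpos : ∀ i j, 0 < P i j := fun i j =>
    inv_pos.2 (prod_pos fun b _ => prb_pos N hηpos hκ hp.1 b)
  let W : Finset B → A → ℝ := fun T i =>
    ∑ j ∈ G, w i j * (P i j * (if N i ∩ N j ⊆ T then 1 else 0))
  let R : A → ℝ := fun i => ∑ j ∈ G, w i j
  have hvar : ∀ i ∈ G, ∑ T : Finset B, wt (prb N η κ p) T * (W T i - R i) ^ 2 ≤ v := by
    intro i hi
    have hpi : p i ≤ θ := (Finset.mem_filter.1 hi).2
    have h2 := second_moment_w (prb N η κ p) G (w i) (fun j => N i ∩ N j)
      (prb_pos N hηpos hκ hp.1)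
    refine (le_of_eq h2).trans ?_
    refine var_le N hηpos hκ hp.1 i (hdeg i) G (w i) (fun y _ => h0 i y) ?_ (by positivity)
      hLpos.le (fun y _ hy => hcost i y hy)
    intro y _
    refine (hwle i y).trans ?_
    have h3 : p i * p y ≤ θ * p y := mul_le_mul_of_nonneg_right hpi (hp.1 y)
    calc C * n * (p i * p y) ≤ C * n * (θ * p y) := mul_le_mul_of_nonneg_left h3 (by positivity)
      _ = _ := by ring
  have hGcard : ((G.card : ℕ) : ℝ) ≤ 2 * n := by
    have h2 := Finset.card_le_univ G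
    rw [hcard] at h2
    exact_mod_cast h2
  -- choice of `T`
  obtain ⟨T, hTZ⟩ := exists_lt_one (p := prb N η κ p)
    (fun b => (prb_pos N hηpos hκ hp.1 b).le) (prb_le_one N η κ p)
    (fun T => (T.card : ℝ) / ((1 - ε / 2) * n) + (∑ i ∈ G, (W T i - R i) ^ 2) / V) (by
      have h2 : ∑ T : Finset B, wt (prb N η κ p) T *
          ((T.card : ℝ) / ((1 - ε / 2) * n) + (∑ i ∈ G, (W T i - R i) ^ 2) / V) =
          (∑ b, prb N η κ p b) / ((1 - ε / 2) * n) +
          (∑ i ∈ G, ∑ T : Finset B, wt (prb N η κ p) T * (W T i - R i) ^ 2) / V := by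
        rw [← sum_wt_card (prb N η κ p), Finset.sum_comm (s := G), Finset.sum_div, Finset.sum_div,
          ← Finset.sum_add_distrib]
        apply Finset.sum_congr rfl; intro T _
        rw [← Finset.mul_sum]
        ring
      rw [h2]
      have h3 : ∑ b, prb N η κ p b ≤ (1 - 3 * ε / 4) * n := by
        refine (sum_prb_le N hκ hdeg hp).trans ?_
        calc κ * (D + m * η) ≤ κ * (D + ε / 4 * D) :=
              mul_le_mul_of_nonneg_left (by linarith) hκ.le
          _ = (1 - ε) * (1 + ε / 4) * n := by rw [hκdef]; field_simp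
          _ ≤ _ := by
            apply mul_le_mul_of_nonneg_right _ hnR.le
            nlinarith
      have h4 : ∑ i ∈ G, ∑ T : Finset B, wt (prb N η κ p) T * (W T i - R i) ^ 2 ≤ 2 * n * v := by
        calc _ ≤ ∑ i ∈ G, v := Finset.sum_le_sum hvar
          _ = G.card * v := by rw [Finset.sum_const, nsmul_eq_mul]
          _ ≤ _ := mul_le_mul_of_nonneg_right hGcard hvpos.le
      have h5 : 0 < 1 - ε / 2 := by linarith
      calc (∑ b, prb N η κ p b) / ((1 - ε / 2) * n) +
            (∑ i ∈ G, ∑ T : Finset B, wt (prb N η κ p) T * (W T i - R i) ^ 2) / V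
          ≤ (1 - 3 * ε / 4) * n / ((1 - ε / 2) * n) + 2 * n * v / V :=
            add_le_add (div_le_div_of_nonneg_right h3 (by positivity))
              (div_le_div_of_nonneg_right h4 hVpos.le)
        _ = (1 - 3 * ε / 4) / (1 - ε / 2) + ε / 8 := by
            have h6 : 2 * n * v / V = ε / 8 := by
              rw [hVdef]; field_simp; norm_num
            rw [h6, mul_div_mul_right _ _ hnR.ne']
        _ < 1 := by
            rw [← lt_sub_iff_add_lt, div_lt_iff₀ h5]
            nlinarith)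
  have h5 : 0 < 1 - ε / 2 := by linarith
  have hsq0 : 0 ≤ ∑ i ∈ G, (W T i - R i) ^ 2 := Finset.sum_nonneg fun i _ => sq_nonneg _
  have hTcard : (T.card : ℝ) < (1 - ε / 2) * n := by
    have h6 : 0 ≤ (∑ i ∈ G, (W T i - R i) ^ 2) / V := div_nonneg hsq0 hVpos.le
    have h7 : (T.card : ℝ) / ((1 - ε / 2) * n) < 1 := by linarith
    rwa [div_lt_one (by positivity)] at h7
  have hTV : ∑ i ∈ G, (W T i - R i) ^ 2 ≤ V := by
    have h6 : 0 ≤ (T.card : ℝ) / ((1 - ε / 2) * n) := by positivity
    have h7 : (∑ i ∈ G, (W T i - R i) ^ 2) / V < 1 := by linarith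
    rw [div_lt_one hVpos] at h7
    exact h7.le
  -- the new weights
  let w' : A → A → ℝ := fun i j => if i ∈ G ∧ j ∈ G then
    w i j * (P i j * (if N i ∩ N j ⊆ T then 1 else 0)) else 0
  have hPsymm : ∀ i j, P i j = P j i := by
    intro i j; simp only [P, Finset.inter_comm]
  have hw'symm : ∀ i j, w' i j = w' j i := by
    intro i j
    simp only [w', hsymm i j, hPsymm i j, Finset.inter_comm (N i) (N j), and_comm (a := i ∈ G)]
  have hw'0 : ∀ i j, 0 ≤ w' i j := by
    intro i j
    simp only [w']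
    split_ifs
    · exact mul_nonneg (h0 i j) (mul_nonneg (hPpos i j).le zero_le_one)
    · simp
    · exact le_rfl
  have hw'T : ∀ i j, w' i j ≠ 0 → N i ∩ N j ⊆ T := by
    intro i j h
    by_contra h2
    apply h
    simp [w', h2]
  have hrow' : ∀ i ∈ G, ∑ j, w' i j = W T i := by
    intro i hi
    simp only [w', hi, true_and, W]
    rw [← Finset.sum_filter]
    apply Finset.sum_congr _ fun _ _ => rfl
    ext j; simp
  have hrow'' : ∀ i, i ∉ G → ∑ j, w' i j = 0 := by
    intro i hi
    simp [w', hi]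
  set E1 : ℝ := √(2 * n * V) + 2 / θ with hE1
  have hbad : (((univ \ G).card : ℕ) : ℝ) ≤ 1 / θ := by
    have h6 : univ \ G = univ.filter fun i => ¬ p i ≤ θ := by
      ext i; simp [hG]
    rw [h6]
    exact card_heavy_le hp hθ
  have hR : ∀ i, 1 - R i = ∑ j ∈ univ \ G, w i j := by
    intro i
    have h6 := Finset.sum_sdiff (Finset.subset_univ G) (f := w i)
    rw [hrow i] at h6
    simp only [R]; linarith
  have hR0 : ∀ i, 0 ≤ 1 - R i := by
    intro i; rw [hR]; exact Finset.sum_nonneg fun j _ => h0 i j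
  have hRsum : ∑ i ∈ G, (1 - R i) ≤ 1 / θ := by
    refine le_trans ?_ hbad
    calc ∑ i ∈ G, (1 - R i) ≤ ∑ i, (1 - R i) :=
          Finset.sum_le_sum_of_subset_of_nonneg (Finset.subset_univ _) fun i _ _ => hR0 i
      _ = ∑ i, ∑ j ∈ univ \ G, w i j := Finset.sum_congr rfl fun i _ => hR i
      _ = ∑ j ∈ univ \ G, ∑ i, w i j := Finset.sum_comm
      _ = ∑ j ∈ univ \ G, 1 := by
          apply Finset.sum_congr rfl; intro j _
          rw [← hrow j]
          exact Finset.sum_congr rfl fun i _ => hsymm i j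
      _ = (((univ \ G).card : ℕ) : ℝ) := by simp
  have hE1' : ∑ i, |∑ j, w' i j - 1| ≤ E1 := by
    rw [← Finset.sum_sdiff (Finset.subset_univ G)]
    have h6 : ∑ i ∈ univ \ G, |∑ j, w' i j - 1| ≤ 1 / θ := by
      refine le_trans (le_of_eq ?_) hbad
      rw [Finset.card_eq_sum_ones]
      push_cast
      apply Finset.sum_congr rfl; intro i hi
      rw [hrow'' i (Finset.mem_sdiff.1 hi).2]
      norm_num
    have h7 : ∑ i ∈ G, |∑ j, w' i j - 1| ≤ √(2 * n * V) + 1 / θ := by
      calc ∑ i ∈ G, |∑ j, w' i j - 1| ≤ ∑ i ∈ G, (|W T i - R i| + (1 - R i)) := by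
            apply Finset.sum_le_sum; intro i hi
            rw [hrow' i hi]
            have h8 : W T i - 1 = (W T i - R i) - (1 - R i) := by ring
            rw [h8]
            refine (abs_sub _ _).trans ?_
            rw [abs_of_nonneg (hR0 i)]
        _ = ∑ i ∈ G, |W T i - R i| + ∑ i ∈ G, (1 - R i) := Finset.sum_add_distrib
        _ ≤ √(2 * n * V) + 1 / θ := by
            apply add_le_add _ hRsum
            apply Real.le_sqrt_of_sq_le
            have h8 := sq_sum_le_card_mul_sum_sq (s := G) (f := fun i => |W T i - R i|)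
            refine h8.trans ?_
            simp only [sq_abs]
            calc (G.card : ℝ) * ∑ i ∈ G, (W T i - R i) ^ 2 ≤ G.card * V :=
                  mul_le_mul_of_nonneg_left hTV (by positivity)
              _ ≤ _ := mul_le_mul_of_nonneg_right hGcard hVpos.le
    have h8 : 2 / θ = 1 / θ + 1 / θ := by ring
    rw [hE1, h8]
    linarith
  have hE1small : E1 ≤ ε / 8 * n := by
    have h6 : √(2 * n * V) ≤ ε / 16 * n := by
      apply Real.sqrt_le_iff.2
      refine ⟨by positivity, ?_⟩
      have h7 : 2 * n * V = n ^ 2 * (32 * v / ε) := by rw [hVdef]; ring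
      rw [h7]
      have h8 : 32 * v / ε ≤ ε ^ 2 / 256 := by
        rw [div_le_iff₀ hε]
        calc 32 * v ≤ 32 * (ε ^ 3 / 8192) := by linarith
          _ = _ := by ring
      calc (n:ℝ) ^ 2 * (32 * v / ε) ≤ n ^ 2 * (ε ^ 2 / 256) :=
            mul_le_mul_of_nonneg_left h8 (by positivity)
        _ = _ := by ring
    have h7 : 2 / θ ≤ ε / 16 * n := by
      rw [div_le_iff₀ hθ]
      rw [div_le_iff₀ hε] at h1
      linarith
    rw [hE1]; linarith
  set μ : ℝ := C * n * θ ^ 2 * L with hμdef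
  have hμ0 : 0 ≤ μ := by positivity
  have hw'μ : ∀ i j, w' i j ≤ μ := by
    intro i j
    by_cases h : i ∈ G ∧ j ∈ G
    · simp only [w', if_pos h]
      by_cases hz : w i j = 0
      · rw [hz, zero_mul]; exact hμ0
      · have h6 : P i j ≤ L := hcost i j hz _ subset_rfl
        have h7 : P i j * (if N i ∩ N j ⊆ T then (1:ℝ) else 0) ≤ L := by
          split_ifs
          · linarith
          · linarith
        have h8 : 0 ≤ P i j * (if N i ∩ N j ⊆ T then (1:ℝ) else 0) := by
          split_ifs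
          · linarith [hPpos i j]
          · simp
        have hpi : p i ≤ θ := (Finset.mem_filter.1 h.1).2
        have hpj : p j ≤ θ := (Finset.mem_filter.1 h.2).2
        have h9 : w i j ≤ C * n * θ ^ 2 := by
          refine (hwle i j).trans ?_
          apply mul_le_mul_of_nonneg_left _ (by positivity)
          rw [sq]
          exact mul_le_mul hpi hpj (hp.1 j) hθ.le
        exact mul_le_mul h9 h7 h8 (by positivity)
    · simp only [w', if_neg h]; exact hμ0
  have hQ : ∑ i, ∑ j, w' i j ^ 2 ≤ μ * (2 * n + E1) := by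
    calc ∑ i, ∑ j, w' i j ^ 2 ≤ ∑ i, ∑ j, μ * w' i j := by
          apply Finset.sum_le_sum; intro i _
          apply Finset.sum_le_sum; intro j _
          rw [sq]
          exact mul_le_mul_of_nonneg_right (hw'μ i j) (hw'0 i j)
      _ = μ * ∑ i, ∑ j, w' i j := by simp only [Finset.mul_sum]
      _ ≤ μ * (2 * n + E1) := by
          apply mul_le_mul_of_nonneg_left _ hμ0
          calc ∑ i, ∑ j, w' i j ≤ ∑ i : A, (1 + |∑ j, w' i j - 1|) := by
                apply Finset.sum_le_sum; intro i _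
                have := le_abs_self (∑ j, w' i j - 1)
                linarith
            _ = 2 * n + ∑ i, |∑ j, w' i j - 1| := by
                rw [Finset.sum_add_distrib, Finset.sum_const, nsmul_eq_mul, mul_one,
                  Finset.card_univ, hcard]
                push_cast; ring
            _ ≤ _ := by linarith
  have hfin := rounding n N hcard hpair T w' hw'symm hw'0 hw'T E1 hE1' _ hQ
  have hsq : √(2 * n * (μ * (2 * n + E1))) ≤ ε / 8 * n := by
    apply Real.sqrt_le_iff.2
    refine ⟨by positivity, ?_⟩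
    have h6 : 2 * n + E1 ≤ 3 * n := by nlinarith
    calc 2 * n * (μ * (2 * n + E1)) ≤ 2 * n * (ε ^ 2 / 384 * (3 * n)) := by
          apply mul_le_mul_of_nonneg_left _ (by positivity)
          apply mul_le_mul hμ h6 _ (by positivity)
          rw [hE1]; positivity
      _ = _ := by ring
  nlinarith

end Pool.Agent.KS6_44.VL
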