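import Mathlib
import Pool.Agent.KS6_44.VL.LowerCore

set_option linter.unusedSectionVars false

open Finset Filter Topology

namespace Pool.Agent.KS6_44.VL

lemma lower_asymp {c : ℝ} (hc0 : 0 < c) (hc : c ^ 2 < Real.exp 1 / 2) :
    ∀ᶠ n : ℕ in atTop, ∀ (m : ℕ) (N : Fin (2 * n) → Finset (Fin m)),
      (∀ e : Fin n × Fin 2 ≃ Fin (2 * n), ∃ k : Fin n → Fin m, Function.Injective k ∧
        ∀ s, k s ∈ N (e (s, 0)) ∧ k s ∈ N (e (s, 1))) →
      ∃ a, c * √(n * Real.log n) ≤ ((N a).card : ℝ) := by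
  have he := Real.exp_pos 1
  obtain ⟨ε, hε, hε1, hX⟩ : ∃ ε : ℝ, 0 < ε ∧ ε < 1 ∧ (1 + ε) / (1 - ε) * c ^ 2 < Real.exp 1 / 2 := by
    refine ⟨(Real.exp 1 / 2 - c ^ 2) / (4 * Real.exp 1), by apply div_pos <;> linarith, ?_, ?_⟩
    · rw [div_lt_one (by positivity)]; nlinarith [sq_nonneg c]
    · set ε := (Real.exp 1 / 2 - c ^ 2) / (4 * Real.exp 1) with hε
      have h1 : ε * (4 * Real.exp 1) = Real.exp 1 / 2 - c ^ 2 := by
        rw [hε]; field_simp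
      have h2 : 0 < ε := by rw [hε]; apply div_pos <;> linarith
      have h3 : ε ≤ 1 / 8 := by
        rw [hε, div_le_iff₀ (by positivity)]; nlinarith [sq_nonneg c]
      have h4 : (1 + ε) / (1 - ε) ≤ 1 + 4 * ε := by
        rw [div_le_iff₀ (by linarith)]; nlinarith
      have h5 : (1 + ε) / (1 - ε) * c ^ 2 ≤ (1 + 4 * ε) * c ^ 2 :=
        mul_le_mul_of_nonneg_right h4 (sq_nonneg c)
      nlinarith
  set X : ℝ := (1 + ε) / (1 - ε) * c ^ 2 with hXdef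
  have hε' : 0 < 1 - ε := by linarith
  have hXpos : 0 < X := by positivity
  set s : ℝ := X / Real.exp 1 with hs
  have hs0 : 0 < s := by positivity
  have hs1 : s < 1 / 2 := by
    rw [hs, div_lt_iff₀ he]; linarith
  set γ : ℝ := (1 / 2 - s) / 4 with hγ
  have hγ0 : 0 < γ := by rw [hγ]; linarith
  have hsγ : s = 1 / 2 - 4 * γ := by rw [hγ]; ring
  set C : ℝ := 2 * (1 + ε) / ε with hC
  have hCpos : 0 < C := by positivity
  have e1 : ∀ᶠ x : ℝ in atTop, 32 / ε ≤ x ^ γ :=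
    (tendsto_rpow_atTop hγ0).eventually (eventually_ge_atTop _)
  have e2 : ∀ᶠ x : ℝ in atTop, (C ^ 2 / (1 - ε) ^ 2 * c ^ 3) * x ^ (-(γ / 2)) ≤ ε ^ 3 / 8192 := by
    have h1 : Tendsto (fun x : ℝ => (C ^ 2 / (1 - ε) ^ 2 * c ^ 3) * x ^ (-(γ / 2))) atTop
        (𝓝 ((C ^ 2 / (1 - ε) ^ 2 * c ^ 3) * 0)) :=
      (tendsto_rpow_neg_atTop (by positivity)).const_mul _
    rw [mul_zero] at h1
    exact (h1.eventually (gt_mem_nhds (show (0:ℝ) < ε ^ 3 / 8192 by positivity))).mono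
      fun x hx => hx.le
  have e3 : ∀ᶠ x : ℝ in atTop, C * x ^ (-(1 / 2 + 2 * γ)) ≤ ε ^ 2 / 384 := by
    have h1 : Tendsto (fun x : ℝ => C * x ^ (-(1 / 2 + 2 * γ))) atTop (𝓝 (C * 0)) :=
      (tendsto_rpow_neg_atTop (by positivity)).const_mul _
    rw [mul_zero] at h1
    exact (h1.eventually (gt_mem_nhds (show (0:ℝ) < ε ^ 2 / 384 by positivity))).mono
      fun x hx => hx.le
  have e4 : ∀ᶠ x : ℝ in atTop, Real.log x ≤ x ^ γ := by
    have h1 := (isLittleO_log_rpow_atTop hγ0).bound (c := 1) one_pos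
    filter_upwards [h1, eventually_ge_atTop (1:ℝ)] with x hx hx1
    rw [Real.norm_of_nonneg (Real.log_nonneg hx1), Real.norm_of_nonneg (by positivity),
      one_mul] at hx
    exact hx
  have ev := tendsto_natCast_atTop_atTop (R := ℝ) |>.eventually (e1.and (e2.and (e3.and e4)))
  filter_upwards [ev, eventually_ge_atTop 2] with n hn hn2 m N hpair
  obtain ⟨h1, h2, h3, h4⟩ := hn
  by_contra hcon
  push Not at hcon
  have hn2R : (2:ℝ) ≤ n := by exact_mod_cast hn2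
  have hnpos : (0:ℝ) < n := by linarith
  have hlog : 0 < Real.log n := Real.log_pos (by linarith)
  set D : ℝ := c * √(n * Real.log n) with hD
  have hDpos : 0 < D := by positivity
  have hDle : D ≤ c * (n:ℝ) ^ ((1 + γ) / 2) := by
    rw [hD]
    apply mul_le_mul_of_nonneg_left _ hc0.le
    apply Real.sqrt_le_iff.2
    refine ⟨by positivity, ?_⟩
    rw [← Real.rpow_natCast, ← Real.rpow_mul hnpos.le]
    calc (n:ℝ) * Real.log n ≤ n * (n:ℝ) ^ γ := mul_le_mul_of_nonneg_left h4 hnpos.le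
      _ = (n:ℝ) ^ (1 + γ) := by rw [Real.rpow_add hnpos, Real.rpow_one]
      _ = _ := by congr 1; push_cast; ring
  refine lower_core n (by omega) N (by simp) hpair (D := D) (ε := ε) (L := (n:ℝ) ^ s)
    (θ := (n:ℝ) ^ (-1 + γ)) hε hε1 hDpos (fun a => (hcon a).le)
    (Real.one_le_rpow (by linarith) hs0.le) ?_ (by positivity) ?_ ?_ ?_
  · have h5 : D ^ 2 = c ^ 2 * (n * Real.log n) := by
      rw [hD, mul_pow, Real.sq_sqrt (by positivity)]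
    rw [h5, Real.log_rpow hnpos, hs, hXdef]
    apply le_of_eq
    field_simp
  · refine h1.trans (le_of_eq ?_)
    calc (n:ℝ) ^ γ = (n:ℝ) ^ (-1 + γ + 1) := by congr 1; ring
      _ = _ := by rw [Real.rpow_add hnpos, Real.rpow_one]
  · have h5 : (n:ℝ) ^ s * D * (2 * (1 + ε) / ε * (n:ℝ) ^ (-1 + γ) * (D / (1 - ε))) ^ 2 =
        (C ^ 2 / (1 - ε) ^ 2) * ((n:ℝ) ^ s * D ^ 3 * ((n:ℝ) ^ (-1 + γ)) ^ 2) := by
      rw [hC]; field_simp
    rw [h5]
    refine le_trans ?_ h2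
    have h6 : (n:ℝ) ^ s * D ^ 3 * ((n:ℝ) ^ (-1 + γ)) ^ 2 ≤ c ^ 3 * (n:ℝ) ^ (-(γ / 2)) := by
      calc (n:ℝ) ^ s * D ^ 3 * ((n:ℝ) ^ (-1 + γ)) ^ 2
          ≤ (n:ℝ) ^ s * (c * (n:ℝ) ^ ((1 + γ) / 2)) ^ 3 * ((n:ℝ) ^ (-1 + γ)) ^ 2 := by gcongr
        _ = c ^ 3 * ((n:ℝ) ^ s * ((n:ℝ) ^ ((1 + γ) / 2)) ^ 3 * ((n:ℝ) ^ (-1 + γ)) ^ 2) := by ring
        _ = c ^ 3 * (n:ℝ) ^ (-(γ / 2)) := by
            congr 1
            rw [← Real.rpow_natCast ((n:ℝ) ^ ((1 + γ) / 2)), ← Real.rpow_mul hnpos.le,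
              ← Real.rpow_natCast ((n:ℝ) ^ (-1 + γ)), ← Real.rpow_mul hnpos.le,
              ← Real.rpow_add hnpos, ← Real.rpow_add hnpos]
            congr 1
            rw [hsγ]; push_cast; ring
    calc _ ≤ C ^ 2 / (1 - ε) ^ 2 * (c ^ 3 * (n:ℝ) ^ (-(γ / 2))) :=
          mul_le_mul_of_nonneg_left h6 (by positivity)
      _ = _ := by ring
  · refine le_trans (le_of_eq ?_) h3
    have h5 : 2 * (1 + ε) / ε * n * ((n:ℝ) ^ (-1 + γ)) ^ 2 * (n:ℝ) ^ s =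
        C * ((n:ℝ) ^ (1:ℝ) * ((n:ℝ) ^ (-1 + γ)) ^ 2 * (n:ℝ) ^ s) := by
      rw [hC, Real.rpow_one]; ring
    rw [h5]
    congr 1
    rw [← Real.rpow_natCast ((n:ℝ) ^ (-1 + γ)), ← Real.rpow_mul hnpos.le,
      ← Real.rpow_add hnpos, ← Real.rpow_add hnpos]
    congr 1
    rw [hsγ]; push_cast; ring

end Pool.Agent.KS6_44.VL
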