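import Mathlib

set_option linter.unusedSectionVars false

open Finset

namespace Pool.Agent.KS6_44.VL

section Upper
variable {q : ℕ} [Fact q.Prime]

/-- neighbourhood of a vertex: the lines of the affine planes through the chosen points -/
def NN {A : Type*} {L q : ℕ} [Fact q.Prime] (f : A → Fin L → ZMod q × ZMod q) (a : A) :
    Finset (Fin L × (ZMod q × ZMod q)) :=
  univ.filter fun b => (f a b.1).2 = b.2.1 * (f a b.1).1 + b.2.2

lemma NN_card {A : Type*} {L : ℕ} (f : A → Fin L → ZMod q × ZMod q) (a : A) :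
    (NN f a).card = L * q := by
  have h : NN f a = (univ : Finset (Fin L × ZMod q)).image
      (fun z => (z.1, (z.2, (f a z.1).2 - z.2 * (f a z.1).1))) := by
    ext ⟨ℓ, s, t⟩
    simp only [NN, mem_filter, mem_univ, true_and, mem_image, Prod.mk.injEq, Prod.exists]
    constructor
    · intro h
      exact ⟨ℓ, s, rfl, rfl, by rw [h]; ring⟩
    · rintro ⟨ℓ', s', rfl, rfl, h⟩
      rw [← h]; ring
  rw [h, Finset.card_image_of_injective, Finset.card_univ, Fintype.card_prod, Fintype.card_fin,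
    ZMod.card]
  rintro ⟨ℓ, s⟩ ⟨ℓ', s'⟩ h
  simp only [Prod.mk.injEq] at h ⊢
  exact ⟨h.1, h.2.1⟩

/-- the pairs of tuples of points whose common lines all lie in `S` -/
noncomputable def QQ {L q : ℕ} [Fact q.Prime] (S : Finset (Fin L × (ZMod q × ZMod q))) :
    Finset ((Fin L → ZMod q × ZMod q) × (Fin L → ZMod q × ZMod q)) := by
  classical
  exact univ.filter fun uv => ∀ b : Fin L × (ZMod q × ZMod q),
    (uv.1 b.1).2 = b.2.1 * (uv.1 b.1).1 + b.2.2 →
        (uv.2 b.1).2 = b.2.1 * (uv.2 b.1).1 + b.2.2 → b ∈ S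

lemma mem_QQ {L : ℕ} (S : Finset (Fin L × (ZMod q × ZMod q)))
    (uv : (Fin L → ZMod q × ZMod q) × (Fin L → ZMod q × ZMod q)) :
    uv ∈ QQ S ↔ ∀ b : Fin L × (ZMod q × ZMod q),
    (uv.1 b.1).2 = b.2.1 * (uv.1 b.1).1 + b.2.2 →
        (uv.2 b.1).2 = b.2.1 * (uv.2 b.1).1 + b.2.2 → b ∈ S := by
  simp only [QQ, mem_filter, mem_univ, true_and]

/-- the number of pairs of tuples of points whose common lines all lie in `S` -/
lemma card_pairs_le {L : ℕ} (hL : 0 < L) (S : Finset (Fin L × (ZMod q × ZMod q))) :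
    ((QQ S).card : ℝ) ≤
      (((q : ℝ) ^ 2) ^ L) ^ 2 * (((L : ℝ) * q + S.card) / (L * (q:ℝ) ^ 2)) ^ L := by
  classical
  have hq : (0:ℝ) < q := by exact_mod_cast (Fact.out : q.Prime).pos
  have hLR : (0:ℝ) < L := by exact_mod_cast hL
  let P : Fin L → Finset ((ZMod q × ZMod q) × (ZMod q × ZMod q)) := fun ℓ =>
    univ.filter fun ab => ∀ st : ZMod q × ZMod q, ab.1.2 = st.1 * ab.1.1 + st.2 →
      ab.2.2 = st.1 * ab.2.1 + st.2 → (ℓ, st) ∈ S
  let t : Fin L → Finset (ZMod q × ZMod q) := fun ℓ => univ.filter fun st => (ℓ, st) ∈ S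
  have h1 : (QQ S).card ≤ (Fintype.piFinset P).card := by
    apply Finset.card_le_card_of_injOn (fun uv ℓ => (uv.1 ℓ, uv.2 ℓ))
    · intro uv huv
      rw [Finset.mem_coe, mem_QQ] at huv
      simp only [Finset.mem_coe, Fintype.mem_piFinset, P, mem_filter, mem_univ, true_and]
      intro ℓ st hst1 hst2
      exact huv (ℓ, st) hst1 hst2
    · intro uv _ uv' _ h
      have h' : ∀ ℓ, (uv.1 ℓ, uv.2 ℓ) = (uv'.1 ℓ, uv'.2 ℓ) := fun ℓ => congrFun h ℓ
      apply Prod.ext
      · funext ℓ; exact (Prod.ext_iff.1 (h' ℓ)).1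
      · funext ℓ; exact (Prod.ext_iff.1 (h' ℓ)).2
  have h2 : ∀ ℓ, ((P ℓ).card : ℝ) ≤ (q:ℝ) ^ 2 * (q + (t ℓ).card) := by
    intro ℓ
    let P0 : Finset ((ZMod q × ZMod q) × (ZMod q × ZMod q)) :=
      univ.filter fun ab => ab.1.1 = ab.2.1
    let P1 : ZMod q × ZMod q → Finset ((ZMod q × ZMod q) × (ZMod q × ZMod q)) := fun st =>
      univ.filter fun ab => ab.1.2 = st.1 * ab.1.1 + st.2 ∧ ab.2.2 = st.1 * ab.2.1 + st.2
    have h3 : P ℓ ⊆ P0 ∪ (t ℓ).biUnion P1 := by
      rintro ⟨⟨x, y⟩, ⟨x', y'⟩⟩ h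
      simp only [P, mem_filter, mem_univ, true_and] at h
      by_cases hx : x = x'
      · exact Finset.mem_union_left _ (by simp [P0, hx])
      · apply Finset.mem_union_right
        have hxx : x' - x ≠ 0 := sub_ne_zero.2 (Ne.symm hx)
        have h4 : y = (y' - y) / (x' - x) * x + (y - (y' - y) / (x' - x) * x) := by ring
        have h5 : y' = (y' - y) / (x' - x) * x' + (y - (y' - y) / (x' - x) * x) := by
          field_simp; ring
        rw [Finset.mem_biUnion]
        refine ⟨((y' - y) / (x' - x), y - (y' - y) / (x' - x) * x), ?_, ?_⟩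
        · simp only [t, mem_filter, mem_univ, true_and]
          exact h _ h4 h5
        · simp only [P1, mem_filter, mem_univ, true_and]
          exact ⟨h4, h5⟩
    have h6 : P0.card ≤ q ^ 3 := by
      have h7 : P0.card ≤ (univ : Finset (ZMod q × ZMod q × ZMod q)).card := by
        apply Finset.card_le_card_of_injOn (fun ab => (ab.1.1, ab.1.2, ab.2.2))
        · intro ab _; simp
        · rintro ⟨⟨x, y⟩, ⟨x', y'⟩⟩ hab ⟨⟨z, w⟩, ⟨z', w'⟩⟩ hab' h
          simp only [P0, Finset.coe_filter, mem_univ, true_and, Set.mem_ofPred_eq] at hab hab'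
          simp only [Prod.mk.injEq] at h ⊢
          obtain ⟨h1, h2, h3⟩ := h
          subst hab; subst hab'
          exact ⟨⟨h1, h2⟩, h1, h3⟩
      refine h7.trans (le_of_eq ?_)
      rw [Finset.card_univ, Fintype.card_prod, Fintype.card_prod, ZMod.card]; ring
    have h8 : ∀ st, (P1 st).card ≤ q ^ 2 := by
      intro st
      have h7 : (P1 st).card ≤ (univ : Finset (ZMod q × ZMod q)).card := by
        apply Finset.card_le_card_of_injOn (fun ab => (ab.1.1, ab.2.1))
        · intro ab _; simp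
        · rintro ⟨⟨x, y⟩, ⟨x', y'⟩⟩ hab ⟨⟨z, w⟩, ⟨z', w'⟩⟩ hab' h
          simp only [P1, Finset.coe_filter, mem_univ, true_and, Set.mem_ofPred_eq] at hab hab'
          simp only [Prod.mk.injEq] at h ⊢
          obtain ⟨h1, h2⟩ := h
          obtain ⟨h3, h4⟩ := hab
          obtain ⟨h5, h6⟩ := hab'
          refine ⟨⟨h1, ?_⟩, h2, ?_⟩
          · rw [h3, h5, h1]
          · rw [h4, h6, h2]
      refine h7.trans (le_of_eq ?_)
      rw [Finset.card_univ, Fintype.card_prod, ZMod.card]; ring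
    have h9 : (P ℓ).card ≤ q ^ 3 + (t ℓ).card * q ^ 2 := by
      calc (P ℓ).card ≤ (P0 ∪ (t ℓ).biUnion P1).card := Finset.card_le_card h3
        _ ≤ P0.card + ((t ℓ).biUnion P1).card := Finset.card_union_le _ _
        _ ≤ q ^ 3 + (t ℓ).card * q ^ 2 :=
          add_le_add h6 (Finset.card_biUnion_le_card_mul _ _ _ fun st _ => h8 st)
    calc ((P ℓ).card : ℝ) ≤ ((q ^ 3 + (t ℓ).card * q ^ 2 : ℕ) : ℝ) := by exact_mod_cast h9
      _ = _ := by push_cast; ring
  have h8 : ∑ ℓ, ((t ℓ).card : ℝ) = S.card := by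
    have h : S.card = ∑ ℓ, (t ℓ).card := by
      rw [Finset.card_eq_sum_card_fiberwise (f := fun x : Fin L × (ZMod q × ZMod q) => x.1)
        (t := univ) (fun x _ => by simp)]
      apply Finset.sum_congr rfl
      intro ℓ _
      symm
      apply Finset.card_bij (fun a _ => (ℓ, a))
      · intro a ha; simpa [t] using ha
      · intro a _ b _ h; exact (Prod.ext_iff.1 h).2
      · rintro ⟨i, a⟩ hia
        simp only [mem_filter] at hia
        obtain ⟨h1, rfl⟩ := hia
        exact ⟨a, by simpa [t] using h1, rfl⟩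
    rw [h]; push_cast; rfl
  set c : ℝ := ((L : ℝ) * q + S.card) / L with hc
  have hcpos : 0 < c := by positivity
  have h10 : ∏ ℓ : Fin L, ((q:ℝ) + (t ℓ).card) ≤ c ^ L := by
    calc ∏ ℓ : Fin L, ((q:ℝ) + (t ℓ).card)
        ≤ ∏ ℓ : Fin L, (c * Real.exp (((q:ℝ) + (t ℓ).card) / c - 1)) := by
          apply Finset.prod_le_prod (fun ℓ _ => by positivity)
          intro ℓ _
          have h := Real.add_one_le_exp (((q:ℝ) + (t ℓ).card) / c - 1)
          calc (q:ℝ) + (t ℓ).card = c * (((q:ℝ) + (t ℓ).card) / c - 1 + 1) := by field_simp; ring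
            _ ≤ _ := mul_le_mul_of_nonneg_left h hcpos.le
      _ = c ^ L := by
          rw [Finset.prod_mul_distrib, ← Real.exp_sum, Finset.sum_sub_distrib, ← Finset.sum_div,
            Finset.sum_add_distrib, h8]
          simp only [Finset.prod_const, Finset.card_univ, Fintype.card_fin, Finset.sum_const,
            nsmul_eq_mul, mul_one]
          have h11 : ((L:ℝ) * q + S.card) / c - L = 0 := by
            rw [hc]; field_simp; ring
          rw [h11, Real.exp_zero, mul_one]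
  calc _ ≤ (((Fintype.piFinset P).card : ℕ) : ℝ) := by exact_mod_cast h1
    _ = ∏ ℓ, ((P ℓ).card : ℝ) := by rw [Fintype.card_piFinset]; push_cast; rfl
    _ ≤ ∏ ℓ : Fin L, ((q:ℝ) ^ 2 * (q + (t ℓ).card)) :=
        Finset.prod_le_prod (fun j _ => by positivity) fun j _ => h2 j
    _ = ((q:ℝ) ^ 2) ^ L * ∏ ℓ : Fin L, ((q:ℝ) + (t ℓ).card) := by
        rw [Finset.prod_mul_distrib]; simp
    _ ≤ ((q:ℝ) ^ 2) ^ L * c ^ L := mul_le_mul_of_nonneg_left h10 (by positivity)
    _ = _ := by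
        rw [← mul_pow, ← pow_mul, mul_comm L 2, pow_mul, ← mul_pow]
        congr 1
        rw [hc]; field_simp

/-- counting functions satisfying a relation on disjoint pairs -/
lemma card_rel_le {A X : Type*} [Fintype A] [DecidableEq A] [Fintype X] [DecidableEq X]
    (s : ℕ) (ι : Fin s × Fin 2 → A) (hι : Function.Injective ι) (Q : Finset (X × X)) :
    (univ.filter fun f : A → X => ∀ i, (f (ι (i, 0)), f (ι (i, 1))) ∈ Q).card ≤
      Q.card ^ s * (Fintype.card X) ^ (Fintype.card A - 2 * s) := by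
  classical
  let Rt := (Fin s → Q) × ({a : A // a ∉ Set.range ι} → X)
  have hR : Fintype.card Rt = Q.card ^ s * (Fintype.card X) ^ (Fintype.card A - 2 * s) := by
    simp only [Rt, Fintype.card_prod, Fintype.card_fun, Fintype.card_coe, Fintype.card_fin]
    congr 2
    have h1 : Fintype.card {a : A // a ∉ Set.range ι} = Fintype.card A - Fintype.card {a : A // a ∈ Set.range ι} :=
      Fintype.card_subtype_compl _
    rw [h1]
    congr 1
    have h2 : Fintype.card {a : A // a ∈ Set.range ι} = Fintype.card (Fin s × Fin 2) :=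
      Set.card_range_of_injective hι
    rw [h2]; simp [mul_comm]
  rw [← hR, ← Fintype.card_coe]
  refine Fintype.card_le_of_injective
    (fun f => (fun i => ⟨(f.1 (ι (i, 0)), f.1 (ι (i, 1))), (Finset.mem_filter.1 f.2).2 i⟩,
      fun a => f.1 a.1)) ?_
  rintro ⟨f, hf⟩ ⟨f', hf'⟩ h
  have h1 := (Prod.ext_iff.1 h).1
  have h2 := (Prod.ext_iff.1 h).2
  simp only at h1 h2
  apply Subtype.ext
  funext a
  by_cases ha : a ∈ Set.range ι
  · obtain ⟨⟨i, l⟩, rfl⟩ := ha
    have h3 := congrArg Subtype.val (congrFun h1 i)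
    simp only [Prod.mk.injEq] at h3
    fin_cases l
    · exact h3.1
    · exact h3.2
  · exact congrFun h2 ⟨a, ha⟩

/-- bad assignments for a given set of disjoint pairs and a given small set of lines -/
noncomputable def Bad {A : Type*} [Fintype A] [DecidableEq A] {L q : ℕ} [Fact q.Prime] (k : ℕ)
    (z : Finset (A × A) × Finset (Fin L × (ZMod q × ZMod q))) :
    Finset (A → Fin L → ZMod q × ZMod q) := by
  classical
  exact univ.filter fun f => ∃ ι : Fin k × Fin 2 → A, Function.Injective ι ∧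
    z.1 = univ.image (fun i : Fin k => (ι (i, 0), ι (i, 1))) ∧
    ∀ ab ∈ z.1, NN f ab.1 ∩ NN f ab.2 ⊆ z.2

lemma bad_card {A : Type*} [Fintype A] [DecidableEq A] {L n k : ℕ} (hL : 0 < L)
    (hA : Fintype.card A = 2 * n) (hk : k ≤ n)
    (z : Finset (A × A) × Finset (Fin L × (ZMod q × ZMod q))) (hz : z.2.card = k) :
    ((Bad k z).card : ℝ) ≤
      (((q : ℝ) ^ 2) ^ L) ^ (2 * n) * ((((L : ℝ) * q + k) / (L * (q:ℝ) ^ 2)) ^ L) ^ k := by
  classical
  by_cases hex : ∃ ι : Fin k × Fin 2 → A, Function.Injective ι ∧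
    z.1 = univ.image (fun i : Fin k => (ι (i, 0), ι (i, 1)))
  · obtain ⟨ι, hι, hz1⟩ := hex
    set Q : Finset ((Fin L → ZMod q × ZMod q) × (Fin L → ZMod q × ZMod q)) := QQ z.2 with hQ
    have h1 : Bad k z ⊆ univ.filter fun f : A → Fin L → ZMod q × ZMod q =>
        ∀ i, (f (ι (i, 0)), f (ι (i, 1))) ∈ Q := by
      intro f hf
      simp only [Bad, mem_filter, mem_univ, true_and] at hf
      obtain ⟨-, -, -, hf⟩ := hf
      simp only [mem_filter, mem_univ, true_and, hQ, mem_QQ]
      intro i b hb1 hb2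
      apply hf (ι (i, 0), ι (i, 1))
      · rw [hz1]; exact Finset.mem_image.2 ⟨i, mem_univ _, rfl⟩
      · simp only [NN, mem_inter, mem_filter, mem_univ, true_and]
        exact ⟨hb1, hb2⟩
    have h2 := (Finset.card_le_card h1).trans (card_rel_le k ι hι Q)
    have h3 := card_pairs_le hL z.2
    rw [← hQ, hz] at h3
    have hX : Fintype.card (Fin L → ZMod q × ZMod q) = (q ^ 2) ^ L := by
      simp [ZMod.card, sq]
    rw [hX, hA] at h2
    calc ((Bad k z).card : ℝ) ≤ ((Q.card ^ k * ((q ^ 2) ^ L) ^ (2 * n - 2 * k) : ℕ) : ℝ) := by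
          exact_mod_cast h2
      _ = (Q.card : ℝ) ^ k * (((q:ℝ) ^ 2) ^ L) ^ (2 * n - 2 * k) := by push_cast; ring
      _ ≤ ((((q : ℝ) ^ 2) ^ L) ^ 2 * (((L : ℝ) * q + k) / (L * (q:ℝ) ^ 2)) ^ L) ^ k *
            (((q:ℝ) ^ 2) ^ L) ^ (2 * n - 2 * k) := by
          apply mul_le_mul_of_nonneg_right _ (by positivity)
          exact pow_le_pow_left₀ (by positivity) h3 k
      _ = (((q:ℝ) ^ 2) ^ L) ^ (2 * k + (2 * n - 2 * k)) *
            ((((L : ℝ) * q + k) / (L * (q:ℝ) ^ 2)) ^ L) ^ k := by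
          rw [mul_pow, pow_add, ← pow_mul _ 2 k]; ring
      _ = _ := by
          congr 2; omega
  · have h : Bad k z = ∅ := by
      apply Finset.eq_empty_of_forall_notMem
      intro f hf
      simp only [Bad, mem_filter, mem_univ, true_and] at hf
      obtain ⟨ι, hι, hz1, -⟩ := hf
      exact hex ⟨ι, hι, hz1⟩
    rw [h]; simp; positivity

end Upper

end Pool.Agent.KS6_44.VL
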