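import Mathlib
import Pool.Agent.KS6_44.VL.Upper

set_option linter.unusedSectionVars false

open Finset

namespace Pool.Agent.KS6_44.VL

lemma choose_mul_choose_le {a b k : ℕ} (hk : 1 ≤ k) :
    ((a.choose k : ℕ) : ℝ) * ((b.choose k : ℕ) : ℝ) ≤
      (Real.exp 1 ^ 2 * a * b / (k:ℝ) ^ 2) ^ k := by
  have hkR : (0:ℝ) < k := by exact_mod_cast hk
  have hfac : (0:ℝ) < (k.factorial : ℝ) := by exact_mod_cast Nat.factorial_pos k
  have h1 : ∀ c : ℕ, ((c.choose k : ℕ) : ℝ) ≤ (Real.exp 1 * c / k) ^ k := by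
    intro c
    have h2 : ((c.choose k : ℕ) : ℝ) ≤ (c:ℝ) ^ k / (k.factorial : ℝ) := Nat.choose_le_pow_div k c
    refine h2.trans ?_
    have h3 := Real.pow_div_factorial_le_exp (k:ℝ) hkR.le k
    rw [div_le_iff₀ hfac] at h3
    rw [div_le_iff₀ hfac, div_pow, mul_pow, ← Real.exp_nat_mul, mul_one]
    calc (c:ℝ) ^ k = (c:ℝ) ^ k * (k:ℝ) ^ k / (k:ℝ) ^ k := by field_simp
      _ ≤ (c:ℝ) ^ k * (Real.exp k * k.factorial) / (k:ℝ) ^ k := by gcongr
      _ = _ := by ring
  calc ((a.choose k : ℕ) : ℝ) * ((b.choose k : ℕ) : ℝ)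
      ≤ (Real.exp 1 * a / k) ^ k * (Real.exp 1 * b / k) ^ k :=
        mul_le_mul (h1 a) (h1 b) (by positivity) (by positivity)
    _ = _ := by rw [← mul_pow]; congr 1; field_simp

lemma upper_core {n L q : ℕ} [Fact q.Prime] (hn : 0 < n) (hL : 0 < L) (hnm : n ≤ L * q ^ 2)
    (hsmall : ∀ k : ℕ, 1 ≤ k → k ≤ n →
      Real.exp 1 ^ 2 * (4 * (n:ℝ) ^ 2) * (L * (q:ℝ) ^ 2) / (k:ℝ) ^ 2 *
        (((L : ℝ) * q + k) / (L * (q:ℝ) ^ 2)) ^ L ≤ 1 / 2) :
    ∃ N : Fin (2 * n) → Finset (Fin L × (ZMod q × ZMod q)), (∀ a, (N a).card = L * q) ∧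
      ∀ e : Fin n × Fin 2 ≃ Fin (2 * n), ∃ k : Fin n → Fin L × (ZMod q × ZMod q),
        Function.Injective k ∧ ∀ s, k s ∈ N (e (s, 0)) ∧ k s ∈ N (e (s, 1)) := by
  classical
  have hq : (0:ℝ) < q := by exact_mod_cast (Fact.out : q.Prime).pos
  have hLR : (0:ℝ) < L := by exact_mod_cast hL
  have hB : Fintype.card (Fin L × (ZMod q × ZMod q)) = L * q ^ 2 := by
    simp [ZMod.card, sq]
  let Idx : ℕ → Finset (Finset (Fin (2 * n) × Fin (2 * n)) ×
      Finset (Fin L × (ZMod q × ZMod q))) := fun k =>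
    (Finset.powersetCard k univ) ×ˢ (Finset.powersetCard k univ)
  have hIdx : ∀ k, (Idx k).card = (4 * n ^ 2).choose k * (L * q ^ 2).choose k := by
    intro k
    rw [Finset.card_product, Finset.card_powersetCard, Finset.card_powersetCard,
      Finset.card_univ, Finset.card_univ, hB, Fintype.card_prod, Fintype.card_fin]
    congr 2
    ring
  -- there is a good assignment
  obtain ⟨f, hf⟩ : ∃ f : Fin (2 * n) → Fin L → ZMod q × ZMod q, ∀ k ∈ Finset.Icc 1 n,
      ∀ z ∈ Idx k, f ∉ Bad k z := by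
    by_contra hcon
    push Not at hcon
    have h1 : (univ : Finset (Fin (2 * n) → Fin L → ZMod q × ZMod q)) ⊆
        (Finset.Icc 1 n).biUnion fun k => (Idx k).biUnion fun z => Bad k z := by
      intro f _
      obtain ⟨k, hk, z, hz, hfz⟩ := hcon f
      exact Finset.mem_biUnion.2 ⟨k, hk, Finset.mem_biUnion.2 ⟨z, hz, hfz⟩⟩
    have h2 := Finset.card_le_card h1
    have h3 : (((Finset.Icc 1 n).biUnion fun k => (Idx k).biUnion fun z =>
        Bad k z).card : ℝ) ≤
        ∑ k ∈ Finset.Icc 1 n, (((q : ℝ) ^ 2) ^ L) ^ (2 * n) * (1 / 2 : ℝ) ^ k := by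
      calc (((Finset.Icc 1 n).biUnion fun k => (Idx k).biUnion fun z =>
          Bad k z).card : ℝ)
          ≤ ((∑ k ∈ Finset.Icc 1 n, ((Idx k).biUnion fun z => Bad k z).card : ℕ) : ℝ) := by
            exact_mod_cast Finset.card_biUnion_le
        _ = ∑ k ∈ Finset.Icc 1 n, (((Idx k).biUnion fun z => Bad k z).card : ℝ) := by
            push_cast; rfl
        _ ≤ ∑ k ∈ Finset.Icc 1 n, (((q : ℝ) ^ 2) ^ L) ^ (2 * n) * (1 / 2 : ℝ) ^ k := by
            apply Finset.sum_le_sum
            intro k hk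
            have hk1 : 1 ≤ k := (Finset.mem_Icc.1 hk).1
            have hkn : k ≤ n := (Finset.mem_Icc.1 hk).2
            calc (((Idx k).biUnion fun z => Bad k z).card : ℝ)
                ≤ ((∑ z ∈ Idx k, (Bad k z).card : ℕ) : ℝ) := by
                  exact_mod_cast Finset.card_biUnion_le
              _ = ∑ z ∈ Idx k, ((Bad k z).card : ℝ) := by push_cast; rfl
              _ ≤ ∑ z ∈ Idx k, (((q : ℝ) ^ 2) ^ L) ^ (2 * n) *
                    ((((L : ℝ) * q + k) / (L * (q:ℝ) ^ 2)) ^ L) ^ k := by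
                  apply Finset.sum_le_sum
                  intro z hz
                  exact bad_card hL (by simp) hkn z
                    (Finset.mem_powersetCard.1 (Finset.mem_product.1 hz).2).2
              _ = (((q : ℝ) ^ 2) ^ L) ^ (2 * n) *
                    ((((4 * n ^ 2).choose k : ℕ) : ℝ) * (((L * q ^ 2).choose k : ℕ) : ℝ) *
                    ((((L : ℝ) * q + k) / (L * (q:ℝ) ^ 2)) ^ L) ^ k) := by
                  rw [Finset.sum_const, nsmul_eq_mul, hIdx]
                  push_cast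
                  ring
              _ ≤ (((q : ℝ) ^ 2) ^ L) ^ (2 * n) * (1 / 2 : ℝ) ^ k := by
                  apply mul_le_mul_of_nonneg_left _ (by positivity)
                  calc _ ≤ (Real.exp 1 ^ 2 * ((4 * n ^ 2 : ℕ) : ℝ) * ((L * q ^ 2 : ℕ) : ℝ) /
                        (k:ℝ) ^ 2) ^ k * ((((L : ℝ) * q + k) / (L * (q:ℝ) ^ 2)) ^ L) ^ k :=
                        mul_le_mul_of_nonneg_right (choose_mul_choose_le hk1) (by positivity)
                    _ = (Real.exp 1 ^ 2 * (4 * (n:ℝ) ^ 2) * (L * (q:ℝ) ^ 2) / (k:ℝ) ^ 2 *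
                        (((L : ℝ) * q + k) / (L * (q:ℝ) ^ 2)) ^ L) ^ k := by
                        rw [← mul_pow]; push_cast; rfl
                    _ ≤ _ := pow_le_pow_left₀ (by positivity) (hsmall k hk1 hkn) k
    have h4 : ∑ s ∈ Finset.Icc 1 n, (1 / 2 : ℝ) ^ s < 1 := by
      have h5 : ∀ m : ℕ, ∑ s ∈ Finset.Icc 1 m, (1 / 2 : ℝ) ^ s = 1 - (1 / 2) ^ m := by
        intro m
        induction m with
        | zero => simp
        | succ m ih => rw [Finset.sum_Icc_succ_top (by omega), ih]; ring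
      rw [h5]
      have : (0:ℝ) < (1 / 2) ^ n := by positivity
      linarith
    rw [← Finset.mul_sum] at h3
    have h6 : ((univ : Finset (Fin (2 * n) → Fin L → ZMod q × ZMod q)).card : ℝ) =
        (((q : ℝ) ^ 2) ^ L) ^ (2 * n) := by
      rw [Finset.card_univ]
      simp [ZMod.card, sq]
    have h7 : ((univ : Finset (Fin (2 * n) → Fin L → ZMod q × ZMod q)).card : ℝ) ≤
      (((q : ℝ) ^ 2) ^ L) ^ (2 * n) * ∑ s ∈ Finset.Icc 1 n, (1 / 2 : ℝ) ^ s := by
      refine le_trans ?_ h3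
      exact_mod_cast h2
    rw [h6] at h7
    have h8 : (0:ℝ) < (((q : ℝ) ^ 2) ^ L) ^ (2 * n) := by positivity
    nlinarith
  refine ⟨NN f, NN_card f, ?_⟩
  intro e
  have hall := (Finset.all_card_le_biUnion_card_iff_exists_injective
    (fun s : Fin n => NN f (e (s, 0)) ∩ NN f (e (s, 1)))).1 ?_
  · obtain ⟨k, hk1, hk2⟩ := hall
    exact ⟨k, hk1, fun s => Finset.mem_inter.1 (hk2 s)⟩
  · intro J
    by_contra hlt
    push Not at hlt
    set T := J.biUnion fun s => NN f (e (s, 0)) ∩ NN f (e (s, 1)) with hT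
    have hJn : J.card ≤ n := by
      have := Finset.card_le_univ J
      simpa using this
    have hJ1 : 1 ≤ J.card := by omega
    obtain ⟨S, hTS, -, hS⟩ := Finset.exists_subsuperset_card_eq (Finset.subset_univ T)
      hlt.le (by rw [Finset.card_univ, hB]; omega)
    let ι : Fin J.card × Fin 2 → Fin (2 * n) := fun il => e ((J.equivFin.symm il.1 : Fin n), il.2)
    have hι : Function.Injective ι := by
      rintro ⟨i, l⟩ ⟨i', l'⟩ h
      have h1 := e.injective h
      simp only [Prod.mk.injEq] at h1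
      have h2 := J.equivFin.symm.injective (Subtype.ext h1.1)
      rw [h2, h1.2]
    let P : Finset (Fin (2 * n) × Fin (2 * n)) := univ.image fun i : Fin J.card =>
      (ι (i, 0), ι (i, 1))
    have hP : P.card = J.card := by
      rw [Finset.card_image_of_injective, Finset.card_univ, Fintype.card_fin]
      intro i i' h
      have h1 := hι (Prod.ext_iff.1 h).1
      exact (Prod.ext_iff.1 h1).1
    apply hf J.card (Finset.mem_Icc.2 ⟨hJ1, hJn⟩) (P, S)
    · exact Finset.mem_product.2 ⟨Finset.mem_powersetCard.2 ⟨Finset.subset_univ _, hP⟩,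
        Finset.mem_powersetCard.2 ⟨Finset.subset_univ _, hS⟩⟩
    · simp only [Bad, mem_filter, mem_univ, true_and]
      refine ⟨ι, hι, rfl, ?_⟩
      intro ab hab
      obtain ⟨i, -, rfl⟩ := Finset.mem_image.1 hab
      refine Finset.Subset.trans ?_ hTS
      exact Finset.subset_biUnion_of_mem (fun s : Fin n => NN f (e (s, 0)) ∩ NN f (e (s, 1)))
        (J.equivFin.symm i).2

end Pool.Agent.KS6_44.VL
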