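import Mathlib
import Pool.Agent.KS6_44.VL.UpperCore
import Pool.Agent.KS6_44.VL.PNT

set_option linter.unusedSectionVars false

open Finset Filter Topology

namespace Pool.Agent.KS6_44.VL

/-- primes in short intervals, from the prime number theorem -/
lemma exists_prime_near {ε : ℝ} (hε : 0 < ε) (hε1 : ε ≤ 1) :
    ∀ᶠ x : ℝ in atTop, ∃ q : ℕ, q.Prime ∧ x < q ∧ (q : ℝ) ≤ (1 + ε) * x := by
  have hδ : 0 < ε / 4 := by positivity
  have h1 := PNT.theta_div_tendsto
  have h2 : ∀ᶠ x : ℝ in atTop, Chebyshev.theta x / x < 1 + ε / 4 :=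
    h1.eventually (gt_mem_nhds (by linarith))
  have h3 : ∀ᶠ x : ℝ in atTop, 1 - ε / 4 < Chebyshev.theta x / x :=
    h1.eventually (lt_mem_nhds (by linarith))
  have h4 : ∀ᶠ x : ℝ in atTop, 1 - ε / 4 < Chebyshev.theta ((1 + ε) * x) / ((1 + ε) * x) :=
    (tendsto_id.const_mul_atTop (show (0:ℝ) < 1 + ε by linarith)).eventually h3
  filter_upwards [h2, h4, eventually_gt_atTop (0:ℝ)] with x hx1 hx2 hx0
  rw [div_lt_iff₀ hx0] at hx1
  rw [lt_div_iff₀ (by positivity)] at hx2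
  by_contra hcon
  push Not at hcon
  have h5 : Chebyshev.theta ((1 + ε) * x) ≤ Chebyshev.theta x := by
    unfold Chebyshev.theta
    apply Finset.sum_le_sum_of_subset_of_nonneg
    · intro p hp
      simp only [Finset.mem_filter, Finset.mem_Ioc] at hp ⊢
      refine ⟨⟨hp.1.1, ?_⟩, hp.2⟩
      by_contra hlt
      push Not at hlt
      have h6 : x < p := (Nat.floor_lt hx0.le).1 hlt
      have h7 := hcon p hp.2 h6
      have h8 : (p:ℝ) ≤ (1 + ε) * x := (Nat.le_floor_iff (by positivity)).1 hp.1.2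
      linarith
    · intro p hp _
      simp only [Finset.mem_filter, Finset.mem_Ioc] at hp
      apply Real.log_nonneg
      exact_mod_cast hp.1.1
  have h6 : 0 ≤ x * ε * (1 / 2 - ε / 4) := mul_nonneg (by positivity) (by linarith)
  have h7 : (1 - ε / 4) * ((1 + ε) * x) - (1 + ε / 4) * x = x * ε * (1 / 2 - ε / 4) := by ring
  linarith

lemma log_small (K : ℝ) : ∀ᶠ x : ℝ in atTop, K * Real.log x ≤ x := by
  have h := Real.isLittleO_log_id_atTop
  have h2 := h.bound (c := 1 / (|K| + 1)) (by positivity)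
  filter_upwards [h2, eventually_ge_atTop (1:ℝ)] with x hx hx1
  rw [Real.norm_of_nonneg (Real.log_nonneg hx1), id, Real.norm_of_nonneg (by linarith)] at hx
  have hl := Real.log_nonneg hx1
  have h3 : (|K| + 1) * Real.log x ≤ x := by
    have h4 := mul_le_mul_of_nonneg_left hx (show (0:ℝ) ≤ |K| + 1 by positivity)
    calc (|K| + 1) * Real.log x ≤ (|K| + 1) * (1 / (|K| + 1) * x) := h4
      _ = x := by field_simp
  have h5 : K * Real.log x ≤ (|K| + 1) * Real.log x :=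
    mul_le_mul_of_nonneg_right (by linarith [le_abs_self K]) hl
  linarith

/-- the main numerical estimate -/
lemma small_bound {n L q : ℕ} {ε : ℝ} (hε : 0 < ε) (hε1 : ε ≤ 1) (hn : 26 ≤ n) (hL : 2 ≤ L)
    (hLn : (1 + ε) * Real.log n ≤ L)
    (hq : Real.exp 1 * n ≤ L * (q:ℝ) ^ 2) (hq2 : L * (q:ℝ) ^ 2 ≤ 4 * (Real.exp 1 * n))
    (hqbig : (1 + 4 / ε) * Real.exp 5 ≤ q)
    (hsm : 16 * Real.exp 1 ^ 3 * (n:ℝ) ^ (-(ε / 2)) ≤ 1 / 2)
    (k : ℕ) (hk : 1 ≤ k) (hkn : k ≤ n) :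
    Real.exp 1 ^ 2 * (4 * (n:ℝ) ^ 2) * (L * (q:ℝ) ^ 2) / (k:ℝ) ^ 2 *
        (((L : ℝ) * q + k) / (L * (q:ℝ) ^ 2)) ^ L ≤ 1 / 2 := by
  have he := Real.exp_pos 1
  have hnR : (26:ℝ) ≤ n := by exact_mod_cast hn
  have hnpos : (0:ℝ) < n := by linarith
  have hLR : (2:ℝ) ≤ L := by exact_mod_cast hL
  have hLpos : (0:ℝ) < L := by linarith
  have hqpos : (0:ℝ) < q := lt_of_lt_of_le (by positivity) hqbig
  have hkR : (1:ℝ) ≤ k := by exact_mod_cast hk
  have hkpos : (0:ℝ) < k := by linarith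
  have hknR : (k:ℝ) ≤ n := by exact_mod_cast hkn
  have hlogn : 0 ≤ Real.log n := Real.log_nonneg (by linarith)
  set m : ℝ := L * (q:ℝ) ^ 2 with hm
  have hmpos : 0 < m := by positivity
  rcases le_total (L * q * (4 / ε)) (k:ℝ) with hcase | hcase
  · -- large sets
    have h1 : (L:ℝ) * q + k ≤ (1 + ε / 4) * k := by
      have h2 : (L:ℝ) * q = L * q * (4 / ε) * (ε / 4) := by field_simp
      rw [h2]
      nlinarith
    have h2 : (((L : ℝ) * q + k) / m) ^ L ≤ ((1 + ε / 4) * k / m) ^ L := by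
      apply pow_le_pow_left₀ (by positivity)
      exact div_le_div_of_nonneg_right h1 hmpos.le
    have h3 : ((1 + ε / 4) * k / m) ^ L =
        ((1 + ε / 4) * k / m) ^ 2 * ((1 + ε / 4) * k / m) ^ (L - 2) := by
      rw [← pow_add]; congr 1; omega
    have h4 : (1 + ε / 4) * k / m ≤ Real.exp (-(1 - ε / 4)) := by
      have h5 : 1 + ε / 4 ≤ Real.exp (ε / 4) := by linarith [Real.add_one_le_exp (ε / 4)]
      rw [div_le_iff₀ hmpos]
      calc (1 + ε / 4) * k ≤ Real.exp (ε / 4) * n :=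
            mul_le_mul h5 hknR hkpos.le (Real.exp_pos _).le
        _ = Real.exp (-(1 - ε / 4)) * (Real.exp 1 * n) := by
            rw [← mul_assoc, ← Real.exp_add]; congr 2; ring
        _ ≤ _ := mul_le_mul_of_nonneg_left hq (Real.exp_pos _).le
    have h5 : ((1 + ε / 4) * k / m) ^ (L - 2) ≤ Real.exp 2 * (n:ℝ) ^ (-(1 + ε / 2)) := by
      calc ((1 + ε / 4) * k / m) ^ (L - 2) ≤ Real.exp (-(1 - ε / 4)) ^ (L - 2) :=
            pow_le_pow_left₀ (by positivity) h4 _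
        _ = Real.exp ((L - 2 : ℕ) * (-(1 - ε / 4))) := by rw [← Real.exp_nat_mul]
        _ ≤ Real.exp (2 + Real.log n * (-(1 + ε / 2))) := by
            apply Real.exp_le_exp.2
            have h6 : ((L - 2 : ℕ) : ℝ) = L - 2 := by
              rw [Nat.cast_sub hL]; norm_num
            rw [h6]
            have h7 : (1 + ε / 2) * Real.log n ≤ (1 - ε / 4) * L := by
              calc (1 + ε / 2) * Real.log n ≤ ((1 - ε / 4) * (1 + ε)) * Real.log n := by
                    apply mul_le_mul_of_nonneg_right _ hlogn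
                    nlinarith
                _ = (1 - ε / 4) * ((1 + ε) * Real.log n) := by ring
                _ ≤ _ := mul_le_mul_of_nonneg_left hLn (by linarith)
            nlinarith
        _ = _ := by rw [Real.exp_add, Real.rpow_def_of_pos hnpos]
    have h6 : ((1 + ε / 4) * k / m) ^ 2 ≤ 4 * (k:ℝ) ^ 2 / m ^ 2 := by
      rw [div_pow, mul_pow]
      apply div_le_div_of_nonneg_right _ (by positivity)
      apply mul_le_mul_of_nonneg_right _ (by positivity)
      nlinarith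
    calc Real.exp 1 ^ 2 * (4 * (n:ℝ) ^ 2) * m / (k:ℝ) ^ 2 * (((L : ℝ) * q + k) / m) ^ L
        ≤ Real.exp 1 ^ 2 * (4 * (n:ℝ) ^ 2) * m / (k:ℝ) ^ 2 *
          ((4 * (k:ℝ) ^ 2 / m ^ 2) * (Real.exp 2 * (n:ℝ) ^ (-(1 + ε / 2)))) := by
          apply mul_le_mul_of_nonneg_left _ (by positivity)
          rw [h3] at h2
          refine h2.trans ?_
          exact mul_le_mul h6 h5 (by positivity) (by positivity)
      _ = (16 * Real.exp 1 ^ 2 * Real.exp 2 * (n:ℝ) ^ 2 * (n:ℝ) ^ (-(1 + ε / 2))) * (1 / m) := by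
          field_simp
          norm_num
      _ ≤ (16 * Real.exp 1 ^ 2 * Real.exp 2 * (n:ℝ) ^ 2 * (n:ℝ) ^ (-(1 + ε / 2))) *
            (1 / (Real.exp 1 * n)) := by
          apply mul_le_mul_of_nonneg_left _ (by positivity)
          exact one_div_le_one_div_of_le (by positivity) hq
      _ = 16 * Real.exp 1 ^ 3 * (n:ℝ) ^ (-(ε / 2)) := by
          have h7 : (n:ℝ) ^ (-(ε / 2)) = n * (n:ℝ) ^ (-(1 + ε / 2)) := by
            calc (n:ℝ) ^ (-(ε / 2)) = (n:ℝ) ^ (1 + -(1 + ε / 2)) := by congr 1; ring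
              _ = _ := by rw [Real.rpow_add hnpos, Real.rpow_one]
          have h8 : Real.exp 2 = Real.exp 1 ^ 2 := by
            rw [← Real.exp_nat_mul]; norm_num
          rw [h7, h8]; field_simp
      _ ≤ 1 / 2 := hsm
  · -- small sets
    set c : ℝ := 1 + 4 / ε with hc
    have hcpos : 0 < c := by positivity
    have h1 : ((L : ℝ) * q + k) / m ≤ c / q := by
      rw [div_le_div_iff₀ hmpos hqpos, hm]
      calc ((L : ℝ) * q + k) * q ≤ (L * q + L * q * (4 / ε)) * q := by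
            apply mul_le_mul_of_nonneg_right _ hqpos.le; linarith
        _ = c * (L * (q:ℝ) ^ 2) := by rw [hc]; ring
    have h2 : c / q ≤ Real.exp (-5) := by
      rw [div_le_iff₀ hqpos]
      calc c = Real.exp (-5) * (c * Real.exp 5) := by
            rw [mul_comm c, ← mul_assoc, ← Real.exp_add]; norm_num
        _ ≤ _ := mul_le_mul_of_nonneg_left hqbig (Real.exp_pos _).le
    have h3 : (((L : ℝ) * q + k) / m) ^ L ≤ (n:ℝ) ^ (-5 : ℝ) := by
      calc (((L : ℝ) * q + k) / m) ^ L ≤ Real.exp (-5) ^ L :=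
            pow_le_pow_left₀ (by positivity) (h1.trans h2) _
        _ = Real.exp (L * (-5)) := by rw [← Real.exp_nat_mul]
        _ ≤ Real.exp (Real.log n * (-5)) := by
            apply Real.exp_le_exp.2
            nlinarith
        _ = _ := by rw [Real.rpow_def_of_pos hnpos]
    have h4 : (n:ℝ) ^ (-5 : ℝ) = 1 / (n:ℝ) ^ 5 := by
      rw [Real.rpow_neg hnpos.le, one_div]
      congr 1
      rw [← Real.rpow_natCast]; norm_num
    rw [h4] at h3
    have he3 : Real.exp 1 ^ 3 ≤ 20.1 := by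
      have h5 : Real.exp 1 ≤ 2.7183 := by linarith [Real.exp_one_lt_d9]
      calc Real.exp 1 ^ 3 ≤ 2.7183 ^ 3 := pow_le_pow_left₀ he.le h5 3
        _ ≤ _ := by norm_num
    calc Real.exp 1 ^ 2 * (4 * (n:ℝ) ^ 2) * m / (k:ℝ) ^ 2 * (((L : ℝ) * q + k) / m) ^ L
        ≤ Real.exp 1 ^ 2 * (4 * (n:ℝ) ^ 2) * (4 * (Real.exp 1 * n)) / 1 * (1 / (n:ℝ) ^ 5) := by
          apply mul_le_mul _ h3 (by positivity) (by positivity)
          apply div_le_div₀ (by positivity) _ one_pos (one_le_pow₀ hkR)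
          exact mul_le_mul_of_nonneg_left hq2 (by positivity)
      _ = 16 * Real.exp 1 ^ 3 / (n:ℝ) ^ 2 := by field_simp; norm_num
      _ ≤ 16 * 20.1 / (n:ℝ) ^ 2 := by gcongr
      _ ≤ 1 / 2 := by
          rw [div_le_iff₀ (by positivity)]
          nlinarith

lemma upper_asymp {δ : ℝ} (hδ : 0 < δ) : ∀ᶠ n : ℕ in atTop, ∃ (L q : ℕ) (_ : Fact q.Prime),
    n ≤ L * q ^ 2 ∧ ((L * q ^ 2 : ℕ) : ℝ) ≤ (Real.exp 1 + δ) * n ∧
    ((L * q : ℕ) : ℝ) ≤ (√(Real.exp 1) + δ) * √(n * Real.log n) ∧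
    ∃ N : Fin (2 * n) → Finset (Fin L × (ZMod q × ZMod q)), (∀ a, (N a).card = L * q) ∧
      ∀ e : Fin n × Fin 2 ≃ Fin (2 * n), ∃ k : Fin n → Fin L × (ZMod q × ZMod q),
        Function.Injective k ∧ ∀ s, k s ∈ N (e (s, 0)) ∧ k s ∈ N (e (s, 1)) := by
  have he := Real.exp_pos 1
  obtain ⟨ε, hε, hε1, hεδ⟩ : ∃ ε : ℝ, 0 < ε ∧ ε ≤ 1 ∧ 9 * ε ≤ δ :=
    ⟨min 1 (δ / 9), lt_min one_pos (by positivity), min_le_left _ _, by
      have := min_le_right 1 (δ / 9); linarith⟩
  obtain ⟨x0, hx0⟩ := eventually_atTop.1 (exists_prime_near hε hε1)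
  set x1 : ℝ := max x0 ((1 + 4 / ε) * Real.exp 5) with hx1
  have hx1pos : 0 < x1 := lt_of_lt_of_le (by positivity) (le_max_right _ _)
  have e1 : ∀ᶠ x : ℝ in atTop, 3 * x1 ^ 2 * Real.log x ≤ x := log_small _
  have e2 : ∀ᶠ x : ℝ in atTop, 2 / ε ≤ Real.log x :=
    Real.tendsto_log_atTop.eventually (eventually_ge_atTop _)
  have e3 : ∀ᶠ x : ℝ in atTop, 16 * Real.exp 1 ^ 3 * x ^ (-(ε / 2)) ≤ 1 / 2 := by
    have h1 : Tendsto (fun x : ℝ => 16 * Real.exp 1 ^ 3 * x ^ (-(ε / 2))) atTop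
        (𝓝 (16 * Real.exp 1 ^ 3 * 0)) := (tendsto_rpow_neg_atTop (by positivity)).const_mul _
    rw [mul_zero] at h1
    exact (h1.eventually (gt_mem_nhds (show (0:ℝ) < 1 / 2 by norm_num))).mono
      fun x hx => hx.le
  have ev := tendsto_natCast_atTop_atTop (R := ℝ) |>.eventually (e1.and (e2.and e3))
  filter_upwards [ev, eventually_ge_atTop 26] with n hn hn26
  obtain ⟨h1, h2, h3⟩ := hn
  have hnR : (26:ℝ) ≤ n := by exact_mod_cast hn26
  have hnpos : (0:ℝ) < n := by linarith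
  have hlog2 : 2 ≤ Real.log n := by
    refine le_trans ?_ h2
    rw [le_div_iff₀ hε]; linarith
  have hlogpos : 0 < Real.log n := by linarith
  set L : ℕ := ⌈(1 + ε) * Real.log n⌉₊ with hLdef
  have hL1 : (1 + ε) * Real.log n ≤ L := Nat.le_ceil _
  have hL2 : (L:ℝ) < (1 + ε) * Real.log n + 1 := Nat.ceil_lt_add_one (by positivity)
  have hL3 : (L:ℝ) ≤ (1 + 2 * ε) * Real.log n := by
    rw [div_le_iff₀ hε] at h2
    nlinarith
  have hL4 : (2:ℝ) ≤ L := by nlinarith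
  have hLpos : (0:ℝ) < L := by linarith
  have hL2' : 2 ≤ L := by exact_mod_cast hL4
  set x : ℝ := √(Real.exp 1 * n / L) with hx
  have hxsq : x ^ 2 = Real.exp 1 * n / L := Real.sq_sqrt (by positivity)
  have hxx1 : x1 ≤ x := by
    apply Real.le_sqrt_of_sq_le
    rw [le_div_iff₀ hLpos]
    have h4 : (L:ℝ) ≤ 3 * Real.log n := by nlinarith
    have h5 : (1:ℝ) ≤ Real.exp 1 := by linarith [Real.add_one_le_exp (1:ℝ)]
    calc x1 ^ 2 * L ≤ x1 ^ 2 * (3 * Real.log n) := mul_le_mul_of_nonneg_left h4 (by positivity)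
      _ = 3 * x1 ^ 2 * Real.log n := by ring
      _ ≤ n := h1
      _ ≤ Real.exp 1 * n := by nlinarith
  have hxpos : 0 < x := by linarith
  obtain ⟨q, hqp, hq1, hq2⟩ := hx0 x ((le_max_left _ _).trans hxx1)
  have : Fact q.Prime := ⟨hqp⟩
  have hqpos : (0:ℝ) < q := by linarith
  have hm1 : Real.exp 1 * n ≤ L * (q:ℝ) ^ 2 := by
    calc Real.exp 1 * n = L * x ^ 2 := by rw [hxsq]; field_simp
      _ ≤ _ := by gcongr
  have hm2 : L * (q:ℝ) ^ 2 ≤ 4 * (Real.exp 1 * n) := by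
    calc L * (q:ℝ) ^ 2 ≤ L * ((1 + ε) * x) ^ 2 := by gcongr
      _ = (1 + ε) ^ 2 * (L * x ^ 2) := by ring
      _ = (1 + ε) ^ 2 * (Real.exp 1 * n) := by rw [hxsq]; field_simp
      _ ≤ _ := by
        apply mul_le_mul_of_nonneg_right _ (by positivity)
        nlinarith
  have hnm : n ≤ L * q ^ 2 := by
    have h5 : (1:ℝ) ≤ Real.exp 1 := by linarith [Real.add_one_le_exp (1:ℝ)]
    have h6 : (n:ℝ) ≤ L * (q:ℝ) ^ 2 := by nlinarith
    exact_mod_cast h6
  refine ⟨L, q, this, hnm, ?_, ?_, ?_⟩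
  · push_cast
    calc L * (q:ℝ) ^ 2 ≤ L * ((1 + ε) * x) ^ 2 := by gcongr
      _ = (1 + ε) ^ 2 * (L * x ^ 2) := by ring
      _ = (1 + ε) ^ 2 * (Real.exp 1 * n) := by rw [hxsq]; field_simp
      _ = ((1 + ε) ^ 2 * Real.exp 1) * n := by ring
      _ ≤ _ := by
        apply mul_le_mul_of_nonneg_right _ (by positivity)
        have h10 : (1 + ε) ^ 2 ≤ 1 + 3 * ε := by nlinarith
        have h11 : Real.exp 1 ≤ 3 := by linarith [Real.exp_one_lt_d9]
        calc (1 + ε) ^ 2 * Real.exp 1 ≤ (1 + 3 * ε) * Real.exp 1 :=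
              mul_le_mul_of_nonneg_right h10 he.le
          _ = Real.exp 1 + 3 * ε * Real.exp 1 := by ring
          _ ≤ Real.exp 1 + 3 * ε * 3 := by gcongr
          _ ≤ _ := by linarith
  · push_cast
    have h4 : (L:ℝ) * q ≤ (1 + ε) * (L * x) := by
      calc (L:ℝ) * q ≤ L * ((1 + ε) * x) := by gcongr
        _ = _ := by ring
    have h5 : L * x = √(Real.exp 1 * n * L) := by
      rw [hx]
      have h6 : Real.exp 1 * n * L = L ^ 2 * (Real.exp 1 * n / L) := by field_simp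
      rw [h6, Real.sqrt_mul (by positivity), Real.sqrt_sq hLpos.le]
    have h6 : √(Real.exp 1 * n * L) ≤ (1 + ε) * (√(Real.exp 1) * √(n * Real.log n)) := by
      rw [← Real.sqrt_mul he.le]
      apply Real.sqrt_le_iff.2
      refine ⟨by positivity, ?_⟩
      rw [mul_pow, Real.sq_sqrt (by positivity)]
      calc Real.exp 1 * n * L ≤ Real.exp 1 * n * ((1 + 2 * ε) * Real.log n) := by gcongr
        _ ≤ Real.exp 1 * n * ((1 + ε) ^ 2 * Real.log n) := by
            gcongr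
            nlinarith
        _ = _ := by ring
    have h7 : √(Real.exp 1) ≤ 2 := by
      apply Real.sqrt_le_iff.2
      refine ⟨by norm_num, ?_⟩
      linarith [Real.exp_one_lt_d9]
    have h8 : 0 ≤ √(Real.exp 1) := Real.sqrt_nonneg _
    have h9 : 0 ≤ √(n * Real.log n) := Real.sqrt_nonneg _
    calc (L:ℝ) * q ≤ (1 + ε) * (L * x) := h4
      _ ≤ (1 + ε) * ((1 + ε) * (√(Real.exp 1) * √(n * Real.log n))) := by
          rw [h5]; gcongr
      _ = ((1 + ε) ^ 2 * √(Real.exp 1)) * √(n * Real.log n) := by ring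
      _ ≤ (√(Real.exp 1) + δ) * √(n * Real.log n) := by
          apply mul_le_mul_of_nonneg_right _ h9
          have h10 : (1 + ε) ^ 2 ≤ 1 + 3 * ε := by nlinarith
          calc (1 + ε) ^ 2 * √(Real.exp 1) ≤ (1 + 3 * ε) * √(Real.exp 1) :=
                mul_le_mul_of_nonneg_right h10 h8
            _ = √(Real.exp 1) + 3 * ε * √(Real.exp 1) := by ring
            _ ≤ √(Real.exp 1) + 3 * ε * 2 := by gcongr
            _ ≤ _ := by linarith
  · apply upper_core (by omega) (by omega) hnm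
    intro k hk1 hkn
    exact small_bound hε hε1 hn26 hL2' hL1 hm1 hm2
      (((le_max_right _ _).trans hxx1).trans hq1.le) h3 k hk1 hkn

end Pool.Agent.KS6_44.VL
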